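import Pool.Agent.Helper74.Bez.Final

/-!
The bound in terms of finsets of critical points.
-/
namespace Bez
open Finset Matrix MvPolynomial

/-- `z` is a nondegenerate critical point of the function `x ↦ x none` on the hypersurface `F = 0`. -/
def CritPt {K ι : Type*} [Field K] [Fintype ι] (F : MvPolynomial (Option ι) K) (z : Option ι → K) : Prop :=
  eval z F = 0 ∧ (∀ v : ι, eval z (pderiv (some v) F) = 0) ∧ eval z (pderiv none F) ≠ 0 ∧
    ∀ w : ι → K, (∀ v, ∑ v', eval z (pderiv (some v') (pderiv (some v) F)) * w v' = 0) → w = 0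

/-- integer form -/
theorem critPt_card {K ι : Type*} [Field K] [Infinite K] [Fintype ι] (m : ℕ) (F : MvPolynomial (Option ι) K)
    (A0 : Matrix (Fin m) (Fin m) K) (L : Option ι → Matrix (Fin m) (Fin m) K)
    (hF : ∀ x : Option ι → K, eval x F = (A0 + ∑ v, x v • L v).det) (Z : Finset (Option ι → K))
    (hZ : ∀ z ∈ Z, CritPt F z) (α β : ℕ) :
    Z.card * (α ^ (2 * m) * β ^ (Fintype.card ι + 2)) ≤ α ^ (Fintype.card ι + 2) * (α + 2 * β) ^ (2 * m) := by
  classical
  have h := crit_card A0 L F (fun y => (hF y).symm) (ι := Z) (fun z => (z : Option ι → K))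
    Subtype.val_injective (fun z => (hZ z z.2).1) (fun z => (hZ z z.2).2.1) (fun z => (hZ z z.2).2.2.1)
    (fun z => (hZ z z.2).2.2.2) α β
  rwa [Fintype.card_coe, Fintype.card_fin] at h

/-- real form -/
theorem critPt_bound {K ι : Type*} [Field K] [Infinite K] [Fintype ι] (m : ℕ) (F : MvPolynomial (Option ι) K)
    (A0 : Matrix (Fin m) (Fin m) K) (L : Option ι → Matrix (Fin m) (Fin m) K)
    (hF : ∀ x : Option ι → K, eval x F = (A0 + ∑ v, x v • L v).det) (Z : Finset (Option ι → K))
    (hZ : ∀ z ∈ Z, CritPt F z) :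
    (Z.card : ℝ) ≤ (4 * Real.exp 1 * m / (Fintype.card ι + 2 : ℕ)) ^ (Fintype.card ι + 2) := by
  classical
  have h := crit_bound A0 L F (fun y => (hF y).symm) (ι := Z) (fun z => (z : Option ι → K))
    Subtype.val_injective (fun z => (hZ z z.2).1) (fun z => (hZ z z.2).2.1) (fun z => (hZ z z.2).2.2.1)
    (fun z => (hZ z z.2).2.2.2)
  rwa [Fintype.card_coe, Fintype.card_fin] at h

end Bez
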