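import Pool.Agent.Helper74.Bez.Final

/-!
The upper bound (U) with the sharp exponent `n + 1`: if `det (A0 + ∑ y_o L_o) = G(y)`, `y : Option ν → K`, with matrices
of size `m`, `n = |ν|`, then the coordinate `y none` has at most `2 e (2 e (2 m + 1) / (n + 2)) ^ (n + 1)` nondegenerate
critical points on the hypersurface `G = 0` (the auxiliary variable is now in the second group).
-/
namespace Bez2
open Bez
open Finset Matrix

variable {K : Type*} [Field K] {μ ν : Type*} [Fintype μ] [DecidableEq μ] [Fintype ν] [DecidableEq ν]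

/-- entries of the pencil as polynomials -/
noncomputable def PA (A0 : Matrix μ μ K) (L : Option ν → Matrix μ μ K) (a b : μ) :
    MvPolynomial (Option ν ⊕ Option (μ ⊕ μ)) K :=
  MvPolynomial.C (A0 a b) + ∑ o, MvPolynomial.C (L o a b) * MvPolynomial.X (Sum.inl o)

/-- the bilinear system; `none` of the second kind of variables is auxiliary -/
noncomputable def sys (A0 : Matrix μ μ K) (L : Option ν → Matrix μ μ K) (w : μ → K) :
    (μ ⊕ μ) ⊕ Option (Option ν) → MvPolynomial (Option ν ⊕ Option (μ ⊕ μ)) K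
  | Sum.inl (Sum.inl a) => ∑ b, PA A0 L a b * MvPolynomial.X (Sum.inr (some (Sum.inl b)))
  | Sum.inl (Sum.inr b) => (∑ a, MvPolynomial.X (Sum.inr (some (Sum.inr a))) * PA A0 L a b) -
      MvPolynomial.X (Sum.inr none) * MvPolynomial.C (w b)
  | Sum.inr none => (∑ b, MvPolynomial.C (w b) * MvPolynomial.X (Sum.inr (some (Sum.inl b)))) - MvPolynomial.C 1
  | Sum.inr (some none) => (∑ a, ∑ b, MvPolynomial.C (L none a b) *
      (MvPolynomial.X (Sum.inr (some (Sum.inr a))) * MvPolynomial.X (Sum.inr (some (Sum.inl b))))) - MvPolynomial.C 1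
  | Sum.inr (some (some v)) => ∑ a, ∑ b, MvPolynomial.C (L (some v) a b) *
      (MvPolynomial.X (Sum.inr (some (Sum.inr a))) * MvPolynomial.X (Sum.inr (some (Sum.inl b))))

/-- the point of the system -/
def pt (y : Option ν → K) (k h : μ → K) : Option ν ⊕ Option (μ ⊕ μ) → K
  | Sum.inl o => y o
  | Sum.inr none => 0
  | Sum.inr (some (Sum.inl b)) => k b
  | Sum.inr (some (Sum.inr a)) => h a

theorem PA_mem (A0 : Matrix μ μ K) (L : Option ν → Matrix μ μ K) (a b : μ) :
    PA A0 L a b ∈ Wb K (Option ν) (Option (μ ⊕ μ)) 1 0 := by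
  have h0 : (MvPolynomial.C (A0 a b) : MvPolynomial (Option ν ⊕ Option (μ ⊕ μ)) K) ∈
      Wb K (Option ν) (Option (μ ⊕ μ)) 1 0 := Wb_mono (Nat.zero_le 1) le_rfl (Wb_C _)
  have h1 : ∀ (c : K) (i : Option ν), (MvPolynomial.C c * MvPolynomial.X (Sum.inl i) :
      MvPolynomial (Option ν ⊕ Option (μ ⊕ μ)) K) ∈ Wb K (Option ν) (Option (μ ⊕ μ)) 1 0 :=
    fun c i => Wb_mono le_rfl le_rfl (Wb_mul (Wb_C c) (Wb_Xl i))
  unfold PA
  exact Submodule.add_mem _ h0 (Submodule.sum_mem _ fun o _ => h1 _ _)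

theorem sys_mem1 (A0 : Matrix μ μ K) (L : Option ν → Matrix μ μ K) (w : μ → K) (i : μ ⊕ μ) :
    sys A0 L w (Sum.inl i) ∈ Wb K (Option ν) (Option (μ ⊕ μ)) 1 1 := by
  rcases i with a | b
  · refine Submodule.sum_mem _ fun b _ => ?_
    exact Wb_mul (PA_mem A0 L a b) (Wb_Xr _)
  · refine Submodule.sub_mem _ (Submodule.sum_mem _ fun a _ => ?_) ?_
    · exact Wb_mul (d1 := 0) (d2 := 1) (e1 := 1) (e2 := 0) (Wb_Xr _) (PA_mem A0 L a b)
    · exact Wb_mono (Nat.zero_le _) le_rfl (Wb_mul (d1 := 0) (d2 := 1) (e1 := 0) (e2 := 0) (Wb_Xr _) (Wb_C _))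

theorem sys_mem2 (A0 : Matrix μ μ K) (L : Option ν → Matrix μ μ K) (w : μ → K)
    (j : Option (Option ν)) : sys A0 L w (Sum.inr j) ∈ Wb K (Option ν) (Option (μ ⊕ μ)) 0 2 := by
  have hq : ∀ (c : K) (a b : μ), MvPolynomial.C c *
      (MvPolynomial.X (Sum.inr (some (Sum.inr a))) * MvPolynomial.X (Sum.inr (some (Sum.inl b)))) ∈
      Wb K (Option ν) (Option (μ ⊕ μ)) 0 2 := by
    intro c a b
    exact Wb_mul (d1 := 0) (d2 := 0) (e1 := 0) (e2 := 2) (Wb_C _)
      (Wb_mul (d1 := 0) (d2 := 1) (e1 := 0) (e2 := 1) (Wb_Xr _) (Wb_Xr _))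
  rcases j with _ | _ | v
  · refine Submodule.sub_mem _ (Submodule.sum_mem _ fun b _ => ?_) (Wb_mono le_rfl (Nat.zero_le _) (Wb_C _))
    exact Wb_mono le_rfl (by norm_num) (Wb_mul (d1 := 0) (d2 := 0) (e1 := 0) (e2 := 1) (Wb_C _) (Wb_Xr _))
  · exact Submodule.sub_mem _ (Submodule.sum_mem _ fun a _ => Submodule.sum_mem _ fun b _ => hq _ a b)
      (Wb_mono le_rfl (Nat.zero_le _) (Wb_C _))
  · exact Submodule.sum_mem _ fun a _ => Submodule.sum_mem _ fun b _ => hq _ a b

omit [Fintype μ] [DecidableEq μ] [DecidableEq ν] in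
theorem eval_PA (A0 : Matrix μ μ K) (L : Option ν → Matrix μ μ K) (y : Option ν → K)
    (k h : μ → K) (a b : μ) : MvPolynomial.eval (pt y k h) (PA A0 L a b) = pen A0 L y a b := by
  simp only [PA, pen, pt, map_add, map_sum, map_mul, MvPolynomial.eval_C, MvPolynomial.eval_X,
    Matrix.add_apply, Matrix.sum_apply, Matrix.smul_apply, smul_eq_mul]
  congr 1
  exact Finset.sum_congr rfl fun v _ => mul_comm _ _

omit [DecidableEq μ] [DecidableEq ν] in
theorem eval_sys (A0 : Matrix μ μ K) (L : Option ν → Matrix μ μ K) (w : μ → K)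
    (y : Option ν → K) (k h : μ → K) (hk : pen A0 L y *ᵥ k = 0) (hh : h ᵥ* pen A0 L y = 0)
    (hL : ∀ v, h ⬝ᵥ (L (some v) *ᵥ k) = 0) (hT : h ⬝ᵥ (L none *ᵥ k) = 1) (hw : w ⬝ᵥ k = 1)
    (i : (μ ⊕ μ) ⊕ Option (Option ν)) : MvPolynomial.eval (pt y k h) (sys A0 L w i) = 0 := by
  have hq : ∀ M : Matrix μ μ K, MvPolynomial.eval (pt y k h) (∑ a, ∑ b, MvPolynomial.C (M a b) *
      (MvPolynomial.X (Sum.inr (some (Sum.inr a))) * MvPolynomial.X (Sum.inr (some (Sum.inl b))))) = h ⬝ᵥ (M *ᵥ k) := by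
    intro M
    simp only [map_sum, map_mul, MvPolynomial.eval_C, MvPolynomial.eval_X, pt, dotProduct, mulVec,
      Finset.mul_sum]
    exact Finset.sum_congr rfl fun a _ => Finset.sum_congr rfl fun b _ => by ring
  rcases i with (a | b) | (_ | _ | v)
  · simp only [sys, map_sum, map_mul, eval_PA, MvPolynomial.eval_X]
    exact congrFun hk a
  · simp only [sys, map_sub, map_sum, map_mul, eval_PA, MvPolynomial.eval_X]
    have := congrFun hh b
    simp only [vecMul, dotProduct, Pi.zero_apply] at this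
    simp only [pt, zero_mul, sub_zero]
    exact this
  · simp only [sys, map_sub, map_sum, map_mul, MvPolynomial.eval_X, MvPolynomial.eval_C, pt]
    exact sub_eq_zero.2 hw
  · simp only [sys, map_sub]
    rw [hq, hT, MvPolynomial.eval_C, sub_self]
  · simp only [sys]
    rw [hq, hL]

/-- `ln` of the pencil -/
theorem ln_PA (A0 : Matrix μ μ K) (L : Option ν → Matrix μ μ K) (P V : Option ν ⊕ Option (μ ⊕ μ) → K)
    (a b : μ) : (Polynomial.derivative (ln P V (PA A0 L a b))).eval 0 =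
      (∑ o, V (Sum.inl o) • L o) a b := by
  rw [← jac_eq_ln (τ := Unit) (fun _ => PA A0 L a b) P V ()]
  rw [jac_eq_ln]
  simp only [PA, ln, map_add, map_sum, map_mul, MvPolynomial.aeval_X, MvPolynomial.algHom_C,
    Polynomial.algebraMap_eq, Polynomial.derivative_C, Polynomial.derivative_mul, Polynomial.derivative_X,
    Polynomial.eval_mul, Polynomial.eval_C, Polynomial.eval_finsetSum,
    zero_mul, mul_zero, zero_add, add_zero, one_mul,
    Matrix.sum_apply, Matrix.smul_apply, smul_eq_mul]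
  exact Finset.sum_congr rfl fun v _ => mul_comm _ _

omit [Fintype μ] [DecidableEq μ] [Fintype ν] [DecidableEq ν] in
theorem der_mul (P V : Option ν ⊕ Option (μ ⊕ μ) → K) (f g : MvPolynomial (Option ν ⊕ Option (μ ⊕ μ)) K) :
    (Polynomial.derivative (ln P V (f * g))).eval 0 =
      (Polynomial.derivative (ln P V f)).eval 0 * MvPolynomial.eval P g +
      MvPolynomial.eval P f * (Polynomial.derivative (ln P V g)).eval 0 := by
  rw [map_mul, Polynomial.derivative_mul, Polynomial.eval_add, Polynomial.eval_mul, Polynomial.eval_mul,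
    ln_eval, ln_eval]

omit [Fintype μ] [DecidableEq μ] [Fintype ν] [DecidableEq ν] in
theorem der_X (P V : Option ν ⊕ Option (μ ⊕ μ) → K) (i : Option ν ⊕ Option (μ ⊕ μ)) :
    (Polynomial.derivative (ln P V (MvPolynomial.X i))).eval 0 = V i := by
  simp [ln]

omit [Fintype μ] [DecidableEq μ] [Fintype ν] [DecidableEq ν] in
theorem der_C (P V : Option ν ⊕ Option (μ ⊕ μ) → K) (c : K) :
    (Polynomial.derivative (ln P V (MvPolynomial.C c))).eval 0 = 0 := by
  simp [ln]

omit [Fintype μ] [DecidableEq μ] [Fintype ν] [DecidableEq ν] in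
theorem der_sum {ι : Type*} (s : Finset ι) (P V : Option ν ⊕ Option (μ ⊕ μ) → K)
    (f : ι → MvPolynomial (Option ν ⊕ Option (μ ⊕ μ)) K) :
    (Polynomial.derivative (ln P V (∑ i ∈ s, f i))).eval 0 =
      ∑ i ∈ s, (Polynomial.derivative (ln P V (f i))).eval 0 := by
  rw [map_sum, Polynomial.derivative_sum, Polynomial.eval_finsetSum]

omit [Fintype μ] [DecidableEq μ] [Fintype ν] [DecidableEq ν] in
theorem der_sub (P V : Option ν ⊕ Option (μ ⊕ μ) → K) (f g : MvPolynomial (Option ν ⊕ Option (μ ⊕ μ)) K) :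
    (Polynomial.derivative (ln P V (f - g))).eval 0 =
      (Polynomial.derivative (ln P V f)).eval 0 - (Polynomial.derivative (ln P V g)).eval 0 := by
  rw [map_sub, Polynomial.derivative_sub, Polynomial.eval_sub]

/-- surjectivity of the Jacobian of the system at a nondegenerate critical point -/
theorem sys_surj [Infinite K] (A0 : Matrix μ μ K) (L : Option ν → Matrix μ μ K)
    (G : MvPolynomial (Option ν) K) (hdet : ∀ y, (pen A0 L y).det = MvPolynomial.eval y G)
    (y : Option ν → K) (k h w : μ → K) (c : K)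
    (hH : ∀ u : ν → K, (∀ v, ∑ j, MvPolynomial.eval y
      (MvPolynomial.pderiv (some j) (MvPolynomial.pderiv (some v) G)) * u j = 0) → u = 0)
    (hadj : (pen A0 L y).adjugate = c • vecMulVec k h)
    (hk : pen A0 L y *ᵥ k = 0) (hh : h ᵥ* pen A0 L y = 0)
    (hker : ∀ k', pen A0 L y *ᵥ k' = 0 → ∃ a : K, k' = a • k)
    (hker' : ∀ h', h' ᵥ* pen A0 L y = 0 → ∃ b : K, h' = b • h)
    (hL : ∀ v, h ⬝ᵥ (L (some v) *ᵥ k) = 0) (hT : h ⬝ᵥ (L none *ᵥ k) = 1) (hw : w ⬝ᵥ k = 1) :
    Function.Surjective (jac (sys A0 L w) (pt y k h)) := by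
  refine jac_surj_of_inj _ _ ?_ ?_
  · simp only [Fintype.card_sum, Fintype.card_option]
    ring
  intro V hV
  have hV' : ∀ i, (Polynomial.derivative (ln (pt y k h) V (sys A0 L w i))).eval 0 = 0 := by
    intro i
    rw [← jac_eq_ln]
    exact congrFun hV i
  have hq : ∀ M : Matrix μ μ K, (Polynomial.derivative (ln (pt y k h) V (∑ a, ∑ b, MvPolynomial.C (M a b) *
      (MvPolynomial.X (Sum.inr (some (Sum.inr a))) * MvPolynomial.X (Sum.inr (some (Sum.inl b))))))).eval 0 =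
      (fun a => V (Sum.inr (some (Sum.inr a)))) ⬝ᵥ (M *ᵥ k) + h ⬝ᵥ (M *ᵥ (fun b => V (Sum.inr (some (Sum.inl b))))) := by
    intro M
    simp only [der_sum, der_mul, der_X, der_C]
    simp only [MvPolynomial.eval_C, MvPolynomial.eval_X, map_mul, pt,
      dotProduct, mulVec, Finset.mul_sum, ← Finset.sum_add_distrib]
    exact Finset.sum_congr rfl fun a _ => Finset.sum_congr rfl fun b _ => by ring
  have key := lin_zero A0 L G hdet y k h w c hH hadj hk hh hker hker' hL hT hw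
    (fun o => V (Sum.inl o)) (V (Sum.inr none))
    (fun b => V (Sum.inr (some (Sum.inl b)))) (fun a => V (Sum.inr (some (Sum.inr a)))) ?_ ?_ ?_ ?_ ?_
  · obtain ⟨z1, z3, z4, z5⟩ := key
    funext i
    rcases i with o | (_ | (b | a))
    · exact congrFun z1 o
    · exact z3
    · exact congrFun z4 b
    · exact congrFun z5 a
  · ext a
    have := hV' (Sum.inl (Sum.inl a))
    simp only [sys, der_sum, der_mul, ln_PA, der_X, eval_PA, MvPolynomial.eval_X, pt,
      Finset.sum_add_distrib] at this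
    simp only [Pi.add_apply, mulVec, dotProduct, Pi.zero_apply]
    exact this
  · ext b
    have := hV' (Sum.inl (Sum.inr b))
    simp only [sys, der_sub, der_sum, der_mul, ln_PA, der_X, der_C, eval_PA, MvPolynomial.eval_X,
      MvPolynomial.eval_C, pt, Finset.sum_add_distrib, mul_zero, add_zero] at this
    simp only [Pi.add_apply, vecMul, dotProduct, Pi.smul_apply, smul_eq_mul]
    rw [add_comm]
    exact sub_eq_zero.1 this
  · intro v
    have := hV' (Sum.inr (some (some v)))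
    simp only [sys] at this
    rw [hq] at this
    exact this
  · have := hV' (Sum.inr none)
    simp only [sys, der_sub, der_sum, der_mul, der_X, der_C, MvPolynomial.eval_C, zero_mul, zero_add,
      sub_zero] at this
    simp only [dotProduct]
    exact this
  · have := hV' (Sum.inr (some none))
    simp only [sys, der_sub] at this
    rw [hq, der_C, sub_zero] at this
    exact this

/-- (U): nondegenerate critical points of `y none` on `G = 0` -/
theorem crit_card [Infinite K] (A0 : Matrix μ μ K) (L : Option ν → Matrix μ μ K)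
    (G : MvPolynomial (Option ν) K) (hdet : ∀ y, (pen A0 L y).det = MvPolynomial.eval y G)
    {ι : Type*} [Fintype ι] (y : ι → Option ν → K) (hy : Function.Injective y)
    (h0 : ∀ p, MvPolynomial.eval (y p) G = 0)
    (hg : ∀ p v, MvPolynomial.eval (y p) (MvPolynomial.pderiv (some v) G) = 0)
    (hn : ∀ p, MvPolynomial.eval (y p) (MvPolynomial.pderiv none G) ≠ 0)
    (hH : ∀ p, ∀ u : ν → K, (∀ v, ∑ j, MvPolynomial.eval (y p)
      (MvPolynomial.pderiv (some j) (MvPolynomial.pderiv (some v) G)) * u j = 0) → u = 0) (α β : ℕ) :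
    Fintype.card ι * (2 * Fintype.card μ + 1) * (α ^ (2 * Fintype.card μ) * β ^ (Fintype.card ν + 2)) ≤
      (Fintype.card ν + 2) * (α ^ (Fintype.card ν + 1) * (α + 2 * β) ^ (2 * Fintype.card μ + 1)) := by
  classical
  set c : ι → K := fun p => MvPolynomial.eval (y p) (MvPolynomial.pderiv none G) with hc
  have hs : ∀ p, ∃ k h : μ → K, (pen A0 L (y p)).adjugate = vecMulVec k h ∧
      pen A0 L (y p) *ᵥ k = 0 ∧ h ᵥ* pen A0 L (y p) = 0 ∧
      (∀ k', pen A0 L (y p) *ᵥ k' = 0 → ∃ a : K, k' = a • k) ∧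
      (∀ h', h' ᵥ* pen A0 L (y p) = 0 → ∃ b : K, h' = b • h) ∧ k ≠ 0 := by
    intro p
    refine kernel_struct _ ((c p)⁻¹ • L none) ?_ ?_
    · rw [hdet, h0]
    · rw [Matrix.mul_smul, trace_smul, tr_L A0 L G hdet, smul_eq_mul]
      exact inv_mul_cancel₀ (hn p)
  choose k h hadj hk hh hker hker' hk0 using hs
  obtain ⟨w, hw⟩ := exists_generic k hk0
  have hcn : ∀ p, c p ≠ 0 := hn
  -- normalisation
  set k1 : ι → μ → K := fun p => (w ⬝ᵥ k p)⁻¹ • k p with hk1
  set h1 : ι → μ → K := fun p => ((c p)⁻¹ * (w ⬝ᵥ k p)) • h p with hh1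
  have hadj1 : ∀ p, (pen A0 L (y p)).adjugate = c p • vecMulVec (k1 p) (h1 p) := by
    intro p
    rw [hadj, hk1, hh1]
    ext i j
    simp only [vecMulVec_apply, Pi.smul_apply, smul_eq_mul, Matrix.smul_apply]
    have := hw p
    have := hcn p
    field_simp
  have hkk : ∀ p, pen A0 L (y p) *ᵥ k1 p = 0 := by
    intro p
    rw [hk1]
    simp only [mulVec_smul, hk, smul_zero]
  have hhh : ∀ p, h1 p ᵥ* pen A0 L (y p) = 0 := by
    intro p
    rw [hh1]
    simp only [smul_vecMul, hh, smul_zero]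
  have hkr : ∀ p, ∀ k', pen A0 L (y p) *ᵥ k' = 0 → ∃ a : K, k' = a • k1 p := by
    intro p k' hk'
    obtain ⟨a, ha⟩ := hker p k' hk'
    refine ⟨a * (w ⬝ᵥ k p), ?_⟩
    rw [hk1]
    simp only [smul_smul]
    rw [mul_assoc, mul_inv_cancel₀ (hw p), mul_one]
    exact ha
  have hkr' : ∀ p, ∀ h', h' ᵥ* pen A0 L (y p) = 0 → ∃ b : K, h' = b • h1 p := by
    intro p h' hh'
    obtain ⟨b, hb⟩ := hker' p h' hh'
    refine ⟨b * ((c p)⁻¹ * (w ⬝ᵥ k p))⁻¹, ?_⟩
    rw [hh1]
    simp only [smul_smul]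
    rw [mul_assoc, inv_mul_cancel₀ (mul_ne_zero (inv_ne_zero (hcn p)) (hw p)), mul_one]
    exact hb
  have hquad : ∀ p (M : Matrix μ μ K), c p * (h1 p ⬝ᵥ (M *ᵥ k1 p)) =
      ((pen A0 L (y p)).adjugate * M).trace := by
    intro p M
    rw [hadj1, Matrix.smul_mul, trace_smul, vecMulVec_mul, trace_vecMulVec, dotProduct_comm (k1 p),
      ← dotProduct_mulVec, smul_eq_mul]
  have hL : ∀ p v, h1 p ⬝ᵥ (L (some v) *ᵥ k1 p) = 0 := by
    intro p v
    have := hquad p (L (some v))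
    rw [tr_L A0 L G hdet, hg] at this
    exact (mul_eq_zero.1 this).resolve_left (hcn p)
  have hT : ∀ p, h1 p ⬝ᵥ (L none *ᵥ k1 p) = 1 := by
    intro p
    have := hquad p (L none)
    rw [tr_L A0 L G hdet] at this
    exact mul_left_cancel₀ (hcn p) (this.trans (mul_one _).symm)
  have hw1 : ∀ p, w ⬝ᵥ k1 p = 1 := by
    intro p
    rw [hk1]
    simp only [dotProduct_smul, smul_eq_mul]
    exact inv_mul_cancel₀ (hw p)
  have hb := bez (sys A0 L w) (fun p => pt (y p) (k1 p) (h1 p)) ?_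
    (fun p i => eval_sys A0 L w (y p) (k1 p) (h1 p) (hkk p) (hhh p) (hL p) (hT p) (hw1 p) i)
    (fun p => sys_surj A0 L G hdet (y p) (k1 p) (h1 p) w (c p) (hH p) (hadj1 p) (hkk p) (hhh p)
      (hkr p) (hkr' p) (hL p) (hT p) (hw1 p))
    (sys_mem1 A0 L w) (sys_mem2 A0 L w) ?_ α β
  · simp only [Fintype.card_sum, Fintype.card_option] at hb
    have e2 : Fintype.card μ + Fintype.card μ = 2 * Fintype.card μ := by ring
    rw [e2, Nat.factorial_succ (2 * Fintype.card μ), Nat.factorial_succ (Fintype.card ν + 1),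
      show Fintype.card ν + 1 + 1 = Fintype.card ν + 2 by ring] at hb
    have hpos : 0 < (Fintype.card ν + 1).factorial * (2 * Fintype.card μ).factorial := by positivity
    refine le_of_mul_le_mul_right ?_ hpos
    calc _ = Fintype.card ι * (α ^ (2 * Fintype.card μ) * β ^ (Fintype.card ν + 2)) *
          ((Fintype.card ν + 1).factorial * ((2 * Fintype.card μ + 1) * (2 * Fintype.card μ).factorial)) := by ring
      _ ≤ _ := hb
      _ = _ := by ring
  · intro p q hpq
    apply hy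
    funext o
    exact congrFun hpq (Sum.inl o)
  · simp only [Fintype.card_sum, Fintype.card_option]
    ring

/-- numerical consequence -/
theorem num_bound (S m n : ℕ) (h : ∀ α β : ℕ,
    S * (2 * m + 1) * (α ^ (2 * m) * β ^ (n + 2)) ≤ (n + 2) * (α ^ (n + 1) * (α + 2 * β) ^ (2 * m + 1))) :
    (S : ℝ) ≤ 2 * Real.exp 1 * (2 * Real.exp 1 * (2 * m + 1) / (n + 2 : ℕ)) ^ (n + 1) := by
  set M := n + 2 with hM
  set q := 2 * m + 1 with hq
  have h := h (2 * q) M
  have hqp : (0 : ℝ) < q := by rw [hq]; positivity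
  have hMp : (0 : ℝ) < M := by rw [hM]; positivity
  have h' : (S : ℝ) * q * ((2 * q : ℝ) ^ (2 * m) * (M : ℝ) ^ M) ≤
      M * ((2 * q : ℝ) ^ (n + 1) * (2 * q + 2 * M : ℝ) ^ q) := by
    exact_mod_cast h
  have e1 : (2 * q + 2 * M : ℝ) ^ q = (2 * q : ℝ) ^ (2 * m) * (2 * q) * (1 + M / q : ℝ) ^ q := by
    rw [← pow_succ, ← hq, ← mul_pow]
    congr 1
    field_simp
  have e2 : (1 + M / q : ℝ) ^ q ≤ Real.exp 1 ^ M := by
    have h3 : (1 + M / q : ℝ) ≤ Real.exp (M / q : ℝ) := by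
      have := Real.add_one_le_exp (M / q : ℝ)
      linarith
    calc (1 + M / q : ℝ) ^ q ≤ (Real.exp (M / q : ℝ)) ^ q := by gcongr
      _ = Real.exp M := by
          rw [← Real.exp_nat_mul]
          congr 1
          field_simp
      _ = Real.exp 1 ^ M := by
          rw [← Real.exp_nat_mul, mul_one]
  rw [e1] at h'
  have hpos : (0 : ℝ) < (2 * q : ℝ) ^ (2 * m) * q := by positivity
  have h4 : (S : ℝ) * (M : ℝ) ^ M ≤ 2 * M * (2 * q : ℝ) ^ (n + 1) * (1 + M / q : ℝ) ^ q := by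
    refine le_of_mul_le_mul_left ?_ hpos
    calc (2 * q : ℝ) ^ (2 * m) * q * ((S : ℝ) * (M : ℝ) ^ M)
        = (S : ℝ) * q * ((2 * q : ℝ) ^ (2 * m) * (M : ℝ) ^ M) := by ring
      _ ≤ M * ((2 * q : ℝ) ^ (n + 1) * ((2 * q : ℝ) ^ (2 * m) * (2 * q) * (1 + M / q : ℝ) ^ q)) := h'
      _ = _ := by ring
  have h5 : (S : ℝ) * (M : ℝ) ^ M ≤ 2 * M * (2 * q : ℝ) ^ (n + 1) * Real.exp 1 ^ M :=
    h4.trans (mul_le_mul_of_nonneg_left e2 (by positivity))
  rw [div_pow, mul_div_assoc', le_div_iff₀ (by positivity)]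
  refine le_of_mul_le_mul_right ?_ hMp
  have e3 : (M : ℝ) ^ M = (M : ℝ) ^ (n + 1) * M := by rw [← pow_succ]
  have e4 : Real.exp 1 ^ M = Real.exp 1 ^ (n + 1) * Real.exp 1 := by rw [← pow_succ]
  rw [e3, e4] at h5
  calc (S : ℝ) * (M : ℝ) ^ (n + 1) * M = (S : ℝ) * ((M : ℝ) ^ (n + 1) * M) := by ring
    _ ≤ 2 * M * (2 * q : ℝ) ^ (n + 1) * (Real.exp 1 ^ (n + 1) * Real.exp 1) := h5
    _ = 2 * Real.exp 1 * (2 * Real.exp 1 * (2 * m + 1)) ^ (n + 1) * M := by
      have : ((q : ℕ) : ℝ) = 2 * m + 1 := by rw [hq]; push_cast; ring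
      rw [this, show (2 * Real.exp 1 * (2 * m + 1) : ℝ) = (2 * (2 * m + 1)) * Real.exp 1 by ring,
        mul_pow (2 * (2 * m + 1) : ℝ)]
      ring

/-- (U), sharp exponent: critical points of `y none` on the hypersurface `G = 0` -/
theorem crit_bound [Infinite K] (A0 : Matrix μ μ K) (L : Option ν → Matrix μ μ K)
    (G : MvPolynomial (Option ν) K) (hdet : ∀ y : Option ν → K, (A0 + ∑ o, y o • L o).det = MvPolynomial.eval y G)
    {ι : Type*} [Fintype ι] (y : ι → Option ν → K) (hy : Function.Injective y)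
    (h0 : ∀ p, MvPolynomial.eval (y p) G = 0)
    (hg : ∀ p v, MvPolynomial.eval (y p) (MvPolynomial.pderiv (some v) G) = 0)
    (hn : ∀ p, MvPolynomial.eval (y p) (MvPolynomial.pderiv none G) ≠ 0)
    (hH : ∀ p, ∀ u : ν → K, (∀ v, ∑ j, MvPolynomial.eval (y p)
      (MvPolynomial.pderiv (some j) (MvPolynomial.pderiv (some v) G)) * u j = 0) → u = 0) :
    (Fintype.card ι : ℝ) ≤ 2 * Real.exp 1 *
      (2 * Real.exp 1 * (2 * Fintype.card μ + 1) / (Fintype.card ν + 2 : ℕ)) ^ (Fintype.card ν + 1) :=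
  num_bound _ _ _ fun α β => crit_card A0 L G hdet y hy h0 hg hn hH α β

/-- finset form -/
theorem critPt_bound {K ι : Type*} [Field K] [Infinite K] [Fintype ι] (m : ℕ) (F : MvPolynomial (Option ι) K)
    (A0 : Matrix (Fin m) (Fin m) K) (L : Option ι → Matrix (Fin m) (Fin m) K)
    (hF : ∀ x : Option ι → K, MvPolynomial.eval x F = (A0 + ∑ v, x v • L v).det) (Z : Finset (Option ι → K))
    (hZ : ∀ z ∈ Z, MvPolynomial.eval z F = 0 ∧
      (∀ v : ι, MvPolynomial.eval z (MvPolynomial.pderiv (some v) F) = 0) ∧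
      MvPolynomial.eval z (MvPolynomial.pderiv none F) ≠ 0 ∧
      ∀ w : ι → K, (∀ v, ∑ v', MvPolynomial.eval z
        (MvPolynomial.pderiv (some v') (MvPolynomial.pderiv (some v) F)) * w v' = 0) → w = 0) :
    (Z.card : ℝ) ≤ 2 * Real.exp 1 *
      (2 * Real.exp 1 * (2 * m + 1) / (Fintype.card ι + 2 : ℕ)) ^ (Fintype.card ι + 1) := by
  classical
  have h := crit_bound A0 L F (fun y => (hF y).symm) (ι := Z) (fun z => (z : Option ι → K))
    Subtype.val_injective (fun z => (hZ z z.2).1) (fun z => (hZ z z.2).2.1) (fun z => (hZ z z.2).2.2.1)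
    (fun z => (hZ z z.2).2.2.2)
  rwa [Fintype.card_coe, Fintype.card_fin] at h

end Bez2
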