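import Pool.Agent.Helper74.Bez.LI

/-!
Elementary two-group Bezout: variables `s1 ⊕ s2`, equations of bidegree `(1,1)` (index `t1`) and `(0,2)` (index `t2`).
-/
namespace Bez
open MvPolynomial Finset

variable {K : Type*} [Field K]

/-- exponents of degree `≤ d` -/
def bal (s : Type*) [Fintype s] [DecidableEq s] (d : ℕ) : Finset (s →₀ ℕ) :=
  (range (d + 1)).biUnion fun n => (univ : Finset s).finsuppAntidiag n

theorem mem_bal {s : Type*} [Fintype s] [DecidableEq s] {d : ℕ} {a : s →₀ ℕ} :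
    a ∈ bal s d ↔ ∑ i, a i ≤ d := by
  simp [bal, mem_finsuppAntidiag]

theorem card_bal (s : Type*) [Fintype s] [DecidableEq s] (d : ℕ) :
    (bal s d).card = (Fintype.card s + d).choose (Fintype.card s) := by
  have h : (bal s d).card = ∑ n ∈ range (d + 1), (Fintype.card s + n - 1).choose n := by
    unfold bal
    rw [card_biUnion]
    · refine Finset.sum_congr rfl fun n _ => ?_
      rw [card_finsuppAntidiag_nat_eq_choose, Finset.card_univ]
    · intro x _ y _ hxy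
      change Disjoint _ _
      rw [Finset.disjoint_left]
      intro a ha hb
      rw [mem_finsuppAntidiag] at ha hb
      exact hxy (ha.1.symm.trans hb.1)
  rw [h, Nat.choose_symm_add]
  clear h
  induction d with
  | zero => simp
  | succ d ih =>
    rw [Finset.sum_range_succ, ih, show Fintype.card s + (d + 1) - 1 = Fintype.card s + d by omega,
      ← Nat.add_assoc, Nat.choose_succ_succ]

variable {s1 s2 : Type*} [Fintype s1] [Fintype s2] [DecidableEq s1] [DecidableEq s2]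

/-- bidegree `≤ (d1, d2)` -/
def bset (s1 s2 : Type*) [Fintype s1] [Fintype s2] (d1 d2 : ℕ) : Set (s1 ⊕ s2 →₀ ℕ) :=
  {a | ∑ i, a (Sum.inl i) ≤ d1 ∧ ∑ j, a (Sum.inr j) ≤ d2}

/-- the same as a finset -/
noncomputable def bfin (s1 s2 : Type*) [Fintype s1] [Fintype s2] [DecidableEq s1] [DecidableEq s2]
    (d1 d2 : ℕ) : Finset (s1 ⊕ s2 →₀ ℕ) :=
  (bal s1 d1 ×ˢ bal s2 d2).map (Finsupp.sumFinsuppEquivProdFinsupp (α := s1) (β := s2) (γ := ℕ)).symm.toEmbedding

theorem mem_bfin {d1 d2 : ℕ} {a : s1 ⊕ s2 →₀ ℕ} : a ∈ bfin s1 s2 d1 d2 ↔ a ∈ bset s1 s2 d1 d2 := by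
  unfold bfin bset
  rw [Finset.mem_map_equiv, Finset.mem_product, mem_bal, mem_bal]
  simp only [Equiv.symm_symm, Set.mem_ofPred_eq]
  rfl

theorem card_bfin (d1 d2 : ℕ) : (bfin s1 s2 d1 d2).card =
    (Fintype.card s1 + d1).choose (Fintype.card s1) * (Fintype.card s2 + d2).choose (Fintype.card s2) := by
  unfold bfin
  rw [card_map, card_product, card_bal, card_bal]

variable (K) in
/-- polynomials of bidegree `≤ (d1, d2)` -/
noncomputable def Wb (s1 s2 : Type*) [Fintype s1] [Fintype s2] (d1 d2 : ℕ) :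
    Submodule K (MvPolynomial (s1 ⊕ s2) K) := restrictSupport K (bset s1 s2 d1 d2)

omit [DecidableEq s1] [DecidableEq s2] in
theorem mem_Wb {d1 d2 : ℕ} {f : MvPolynomial (s1 ⊕ s2) K} : f ∈ Wb K s1 s2 d1 d2 ↔
    ∀ a ∈ f.support, ∑ i, a (Sum.inl i) ≤ d1 ∧ ∑ j, a (Sum.inr j) ≤ d2 := by
  unfold Wb
  rw [mem_restrictSupport_iff]
  exact Iff.rfl

theorem Wb_mul {d1 d2 e1 e2 : ℕ} {f g : MvPolynomial (s1 ⊕ s2) K} (hf : f ∈ Wb K s1 s2 d1 d2)
    (hg : g ∈ Wb K s1 s2 e1 e2) : f * g ∈ Wb K s1 s2 (d1 + e1) (d2 + e2) := by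
  classical
  rw [mem_Wb] at *
  intro a ha
  obtain ⟨b, hb, c, hc, rfl⟩ := Finset.mem_add.1 (support_mul f g ha)
  simp only [Finsupp.add_apply, Finset.sum_add_distrib]
  exact ⟨add_le_add (hf b hb).1 (hg c hc).1, add_le_add (hf b hb).2 (hg c hc).2⟩

omit [DecidableEq s1] [DecidableEq s2] in
theorem Wb_mono {d1 d2 e1 e2 : ℕ} (h1 : d1 ≤ e1) (h2 : d2 ≤ e2) :
    Wb K s1 s2 d1 d2 ≤ Wb K s1 s2 e1 e2 := by
  intro f hf
  rw [mem_Wb] at *
  exact fun a ha => ⟨(hf a ha).1.trans h1, (hf a ha).2.trans h2⟩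

theorem Wb_one : (1 : MvPolynomial (s1 ⊕ s2) K) ∈ Wb K s1 s2 0 0 := by
  rw [mem_Wb]
  intro a ha
  have : a = 0 := by
    by_contra h
    rw [mem_support_iff, coeff_one, if_neg (Ne.symm h)] at ha
    exact ha rfl
  subst this
  simp

theorem Wb_C (c : K) : (C c : MvPolynomial (s1 ⊕ s2) K) ∈ Wb K s1 s2 0 0 := by
  have h := (Wb K s1 s2 0 0).smul_mem c Wb_one
  rwa [smul_eq_C_mul, mul_one] at h

theorem Wb_Xl (i : s1) : (X (Sum.inl i) : MvPolynomial (s1 ⊕ s2) K) ∈ Wb K s1 s2 1 0 := by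
  classical
  rw [mem_Wb]
  intro a ha
  have : a = Finsupp.single (Sum.inl i) 1 := by
    by_contra h
    rw [mem_support_iff, coeff_X, if_neg (Ne.symm h)] at ha
    exact ha rfl
  subst this
  constructor
  · rw [Finset.sum_eq_single i]
    · simp
    · intro j _ hj
      rw [Finsupp.single_eq_of_ne]
      simpa using hj
    · simp
  · refine le_of_eq (Finset.sum_eq_zero fun j _ => ?_)
    rw [Finsupp.single_eq_of_ne]
    simp

theorem Wb_Xr (j : s2) : (X (Sum.inr j) : MvPolynomial (s1 ⊕ s2) K) ∈ Wb K s1 s2 0 1 := by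
  classical
  rw [mem_Wb]
  intro a ha
  have : a = Finsupp.single (Sum.inr j) 1 := by
    by_contra h
    rw [mem_support_iff, coeff_X, if_neg (Ne.symm h)] at ha
    exact ha rfl
  subst this
  constructor
  · refine le_of_eq (Finset.sum_eq_zero fun i _ => ?_)
    rw [Finsupp.single_eq_of_ne]
    simp
  · rw [Finset.sum_eq_single j]
    · simp
    · intro i _ hi
      rw [Finsupp.single_eq_of_ne]
      simpa using hi
    · simp

theorem Wb_pow {d1 d2 : ℕ} {f : MvPolynomial (s1 ⊕ s2) K} (hf : f ∈ Wb K s1 s2 d1 d2) (n : ℕ) :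
    f ^ n ∈ Wb K s1 s2 (n * d1) (n * d2) := by
  induction n with
  | zero => simpa using Wb_one
  | succ n ih =>
    rw [pow_succ, Nat.succ_mul, Nat.succ_mul]
    exact Wb_mul ih hf

theorem Wb_prod {ι : Type*} (s : Finset ι) {d1 d2 : ι → ℕ} {f : ι → MvPolynomial (s1 ⊕ s2) K}
    (hf : ∀ i ∈ s, f i ∈ Wb K s1 s2 (d1 i) (d2 i)) :
    ∏ i ∈ s, f i ∈ Wb K s1 s2 (∑ i ∈ s, d1 i) (∑ i ∈ s, d2 i) := by
  classical
  induction s using Finset.induction_on with
  | empty => simpa using Wb_one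
  | insert a s ha ih =>
    rw [Finset.prod_insert ha, Finset.sum_insert ha, Finset.sum_insert ha]
    exact Wb_mul (hf a (Finset.mem_insert_self a s)) (ih fun i hi => hf i (Finset.mem_insert_of_mem hi))

theorem Wb_basis (d1 d2 : ℕ) : Module.Finite K (Wb K s1 s2 d1 d2) ∧
    Module.finrank K (Wb K s1 s2 d1 d2) = (Fintype.card s1 + d1).choose (Fintype.card s1) *
      (Fintype.card s2 + d2).choose (Fintype.card s2) := by
  have e : bset s1 s2 d1 d2 = ↑(bfin s1 s2 d1 d2) := by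
    ext a
    rw [Finset.mem_coe, mem_bfin]
  have : Fintype (bset s1 s2 d1 d2) := by
    rw [e]
    exact FinsetCoe.fintype _
  have b := basisRestrictSupport K (bset s1 s2 d1 d2)
  refine ⟨Module.Finite.of_basis b, ?_⟩
  unfold Wb
  rw [Module.finrank_eq_card_basis b, ← card_bfin]
  have h2 : Fintype.card (bset s1 s2 d1 d2) = Nat.card (bset s1 s2 d1 d2) := by
    rw [Nat.card_eq_fintype_card]
  rw [h2, e]
  simp

variable {ι : Type*} [Fintype ι] [DecidableEq ι]

/-- interpolation polynomials -/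
theorem exists_interp (p : ι → s1 ⊕ s2 → K) (hp : Function.Injective p) :
    ∃ g : ι → MvPolynomial (s1 ⊕ s2) K, (∀ k l, eval (p k) (g l) = if k = l then 1 else 0) ∧
      ∀ l, g l ∈ Wb K s1 s2 (Fintype.card ι) (Fintype.card ι) := by
  have hne : ∀ l k : ι, l ≠ k → ∃ i, p l i ≠ p k i := by
    intro l k hlk
    by_contra h
    push Not at h
    exact hlk (hp (funext h))
  have hi : ∀ l k : ι, ∃ u : MvPolynomial (s1 ⊕ s2) K, (l ≠ k → eval (p l) u = 1 ∧ eval (p k) u = 0) ∧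
      u ∈ Wb K s1 s2 1 1 := by
    intro l k
    by_cases hlk : l = k
    · exact ⟨1, fun h => absurd hlk h, Wb_mono (Nat.zero_le _) (Nat.zero_le _) Wb_one⟩
    · obtain ⟨i, hi⟩ := hne l k hlk
      have hX : (X i : MvPolynomial (s1 ⊕ s2) K) ∈ Wb K s1 s2 1 1 := by
        rcases i with i | i
        · exact Wb_mono le_rfl (Nat.zero_le _) (Wb_Xl i)
        · exact Wb_mono (Nat.zero_le _) le_rfl (Wb_Xr i)
      refine ⟨(p l i - p k i)⁻¹ • (X i - C (p k i)), fun _ => ⟨?_, ?_⟩, ?_⟩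
      · rw [smul_eval, map_sub, eval_X, eval_C, inv_mul_cancel₀ (sub_ne_zero.2 hi)]
      · rw [smul_eval, map_sub, eval_X, eval_C, sub_self, mul_zero]
      · exact Submodule.smul_mem _ _ (Submodule.sub_mem _ hX
          (Wb_mono (Nat.zero_le _) (Nat.zero_le _) (Wb_C _)))
  choose u hu1 hu2 using hi
  refine ⟨fun l => ∏ k ∈ univ.erase l, u l k, ?_, ?_⟩
  · intro k l
    rw [map_prod]
    split_ifs with hkl
    · subst hkl
      exact Finset.prod_eq_one fun j hj => (hu1 k j (Finset.ne_of_mem_erase hj).symm).1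
    · exact Finset.prod_eq_zero (Finset.mem_erase.2 ⟨hkl, mem_univ k⟩) (hu1 l k (Ne.symm hkl)).2
  · intro l
    have h := Wb_prod (univ.erase l) (d1 := fun _ => 1) (d2 := fun _ => 1) (f := u l) fun k _ => hu2 l k
    refine Wb_mono ?_ ?_ h
    all_goals
      rw [Finset.sum_const, smul_eq_mul, mul_one]
      exact (Finset.card_le_univ _)

variable {t1 t2 : Type*} [Fintype t1] [Fintype t2] [DecidableEq t1] [DecidableEq t2]

theorem bez_AB [Infinite K] (f : t1 ⊕ t2 → MvPolynomial (s1 ⊕ s2) K) (p : ι → s1 ⊕ s2 → K)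
    (hp : Function.Injective p) (hf : ∀ k i, eval (p k) (f i) = 0)
    (hJ : ∀ k, Function.Surjective (jac f (p k)))
    (h1 : ∀ i, f (Sum.inl i) ∈ Wb K s1 s2 1 1) (h2 : ∀ j, f (Sum.inr j) ∈ Wb K s1 s2 0 2) (A B : ℕ) :
    Fintype.card ι * ((Fintype.card t1 + A).choose (Fintype.card t1) *
      (Fintype.card t2 + B).choose (Fintype.card t2)) ≤
    (Fintype.card s1 + (A + Fintype.card ι)).choose (Fintype.card s1) *
      (Fintype.card s2 + (A + 2 * B + Fintype.card ι)).choose (Fintype.card s2) := by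
  obtain ⟨g, hg1, hg2⟩ := exists_interp p hp
  obtain ⟨hfin, hrank⟩ := Wb_basis (K := K) (s1 := s1) (s2 := s2) (A + Fintype.card ι)
    (A + 2 * B + Fintype.card ι)
  have := hfin
  rw [← hrank, ← card_bfin (s1 := t1) (s2 := t2)]
  refine card_le f p hf hJ g hg1 (bfin t1 t2 A B) _ ?_
  intro k a ha
  rw [mem_bfin] at ha
  obtain ⟨ha1, ha2⟩ := ha
  have hprod : ∏ i, f i ^ a i ∈ Wb K s1 s2 A (A + 2 * B) := by
    rw [Fintype.prod_sum_type]
    have e1 := Wb_prod (univ : Finset t1) (d1 := fun i => a (Sum.inl i) * 1)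
      (d2 := fun i => a (Sum.inl i) * 1) (f := fun i => f (Sum.inl i) ^ a (Sum.inl i))
      fun i _ => Wb_pow (h1 i) _
    have e2 := Wb_prod (univ : Finset t2) (d1 := fun i => a (Sum.inr i) * 0)
      (d2 := fun i => a (Sum.inr i) * 2) (f := fun i => f (Sum.inr i) ^ a (Sum.inr i))
      fun i _ => Wb_pow (h2 i) _
    refine Wb_mono ?_ ?_ (Wb_mul e1 e2)
    · simp only [mul_one, mul_zero, Finset.sum_const_zero, add_zero]
      exact ha1
    · simp only [mul_one]
      rw [← Finset.sum_mul]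
      omega
  exact Wb_mono (by omega) (by omega) (Wb_mul (hg2 k) hprod)

/-- the two-group Bezout bound -/
theorem bez [Infinite K] (f : t1 ⊕ t2 → MvPolynomial (s1 ⊕ s2) K) (p : ι → s1 ⊕ s2 → K)
    (hp : Function.Injective p) (hf : ∀ k i, eval (p k) (f i) = 0)
    (hJ : ∀ k, Function.Surjective (jac f (p k)))
    (h1 : ∀ i, f (Sum.inl i) ∈ Wb K s1 s2 1 1) (h2 : ∀ j, f (Sum.inr j) ∈ Wb K s1 s2 0 2)
    (hc : Fintype.card t1 + Fintype.card t2 = Fintype.card s1 + Fintype.card s2) (α β : ℕ) :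
    Fintype.card ι * (α ^ Fintype.card t1 * β ^ Fintype.card t2) *
        ((Fintype.card s1).factorial * (Fintype.card s2).factorial) ≤
      ((Fintype.card t1).factorial * (Fintype.card t2).factorial) *
        (α ^ Fintype.card s1 * (α + 2 * β) ^ Fintype.card s2) := by
  set S := Fintype.card ι with hS
  set n1 := Fintype.card s1 with hn1
  set n2 := Fintype.card s2 with hn2
  set q1 := Fintype.card t1 with hq1
  set q2 := Fintype.card t2 with hq2
  -- the inequality for all `T`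
  have hT : ∀ T : ℕ, 1 ≤ T → (S : ℝ) * ((α : ℝ) ^ q1 * (β : ℝ) ^ q2) * ((n1.factorial : ℝ) * n2.factorial) ≤
      ((q1.factorial : ℝ) * q2.factorial) *
      (((α : ℝ) + (n1 + S : ℕ) / T) ^ n1 * ((α : ℝ) + 2 * β + (n2 + S : ℕ) / T) ^ n2) := by
    intro T hT1
    have hTp : (0 : ℝ) < T := by exact_mod_cast hT1
    have h := bez_AB f p hp hf hJ h1 h2 (α * T) (β * T)
    have h' : (S : ℝ) * (((q1 + α * T).choose q1 : ℝ) * ((q2 + β * T).choose q2 : ℝ)) ≤
        ((n1 + (α * T + S)).choose n1 : ℝ) * ((n2 + (α * T + 2 * (β * T) + S)).choose n2 : ℝ) := by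
      exact_mod_cast h
    have l1 : (α : ℝ) ^ q1 * (T : ℝ) ^ q1 ≤ (q1.factorial : ℝ) * ((q1 + α * T).choose q1 : ℝ) := by
      have h3 := Nat.pow_le_choose (α := ℝ) q1 (q1 + α * T)
      rw [div_le_iff₀ (by positivity), show q1 + α * T + 1 - q1 = α * T + 1 by omega] at h3
      have h4 : ((α : ℝ) * T) ^ q1 ≤ ((α * T + 1 : ℕ) : ℝ) ^ q1 := by
        gcongr
        push_cast
        linarith
      rw [← mul_pow]
      linarith
    have l2 : (β : ℝ) ^ q2 * (T : ℝ) ^ q2 ≤ (q2.factorial : ℝ) * ((q2 + β * T).choose q2 : ℝ) := by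
      have h3 := Nat.pow_le_choose (α := ℝ) q2 (q2 + β * T)
      rw [div_le_iff₀ (by positivity), show q2 + β * T + 1 - q2 = β * T + 1 by omega] at h3
      have h4 : ((β : ℝ) * T) ^ q2 ≤ ((β * T + 1 : ℕ) : ℝ) ^ q2 := by
        gcongr
        push_cast
        linarith
      rw [← mul_pow]
      linarith
    have u1 : (n1.factorial : ℝ) * ((n1 + (α * T + S)).choose n1 : ℝ) ≤
        ((α : ℝ) + (n1 + S : ℕ) / T) ^ n1 * (T : ℝ) ^ n1 := by
      have := Nat.choose_le_pow_div (α := ℝ) n1 (n1 + (α * T + S))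
      rw [le_div_iff₀ (by positivity)] at this
      rw [← mul_pow, add_mul, div_mul_cancel₀ _ hTp.ne']
      rw [mul_comm]
      refine this.trans (le_of_eq ?_)
      push_cast
      ring
    have u2 : (n2.factorial : ℝ) * ((n2 + (α * T + 2 * (β * T) + S)).choose n2 : ℝ) ≤
        ((α : ℝ) + 2 * β + (n2 + S : ℕ) / T) ^ n2 * (T : ℝ) ^ n2 := by
      have := Nat.choose_le_pow_div (α := ℝ) n2 (n2 + (α * T + 2 * (β * T) + S))
      rw [le_div_iff₀ (by positivity)] at this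
      rw [← mul_pow, add_mul, div_mul_cancel₀ _ hTp.ne']
      rw [mul_comm]
      refine this.trans (le_of_eq ?_)
      push_cast
      ring
    have hTT : (T : ℝ) ^ q1 * (T : ℝ) ^ q2 = (T : ℝ) ^ n1 * (T : ℝ) ^ n2 := by
      rw [← pow_add, ← pow_add, hc]
    have hpos : (0 : ℝ) < (T : ℝ) ^ q1 * (T : ℝ) ^ q2 := by positivity
    refine le_of_mul_le_mul_right ?_ hpos
    calc (S : ℝ) * ((α : ℝ) ^ q1 * (β : ℝ) ^ q2) * ((n1.factorial : ℝ) * n2.factorial) *
          ((T : ℝ) ^ q1 * (T : ℝ) ^ q2)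
        = (S : ℝ) * (((α : ℝ) ^ q1 * (T : ℝ) ^ q1) * ((β : ℝ) ^ q2 * (T : ℝ) ^ q2)) *
          ((n1.factorial : ℝ) * n2.factorial) := by ring
      _ ≤ (S : ℝ) * (((q1.factorial : ℝ) * ((q1 + α * T).choose q1 : ℝ)) *
          ((q2.factorial : ℝ) * ((q2 + β * T).choose q2 : ℝ))) *
          ((n1.factorial : ℝ) * n2.factorial) := by gcongr
      _ = ((q1.factorial : ℝ) * q2.factorial) * ((n1.factorial : ℝ) * n2.factorial) *
          ((S : ℝ) * (((q1 + α * T).choose q1 : ℝ) * ((q2 + β * T).choose q2 : ℝ))) := by ring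
      _ ≤ ((q1.factorial : ℝ) * q2.factorial) * ((n1.factorial : ℝ) * n2.factorial) *
          (((n1 + (α * T + S)).choose n1 : ℝ) * ((n2 + (α * T + 2 * (β * T) + S)).choose n2 : ℝ)) := by
        gcongr
      _ = ((q1.factorial : ℝ) * q2.factorial) *
          (((n1.factorial : ℝ) * ((n1 + (α * T + S)).choose n1 : ℝ)) *
          ((n2.factorial : ℝ) * ((n2 + (α * T + 2 * (β * T) + S)).choose n2 : ℝ))) := by ring
      _ ≤ ((q1.factorial : ℝ) * q2.factorial) *
          ((((α : ℝ) + (n1 + S : ℕ) / T) ^ n1 * (T : ℝ) ^ n1) *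
          (((α : ℝ) + 2 * β + (n2 + S : ℕ) / T) ^ n2 * (T : ℝ) ^ n2)) := by gcongr
      _ = _ := by rw [hTT]; ring
  -- limit
  have lim : Filter.Tendsto (fun T : ℕ => ((q1.factorial : ℝ) * q2.factorial) *
      (((α : ℝ) + (n1 + S : ℕ) / T) ^ n1 * ((α : ℝ) + 2 * β + (n2 + S : ℕ) / T) ^ n2)) Filter.atTop
      (nhds (((q1.factorial : ℝ) * q2.factorial) * (((α : ℝ) + 0) ^ n1 * ((α : ℝ) + 2 * β + 0) ^ n2))) := by
    refine Filter.Tendsto.const_mul _ (Filter.Tendsto.mul ?_ ?_)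
    · exact ((tendsto_const_div_atTop_nhds_zero_nat _).const_add _).pow _
    · exact ((tendsto_const_div_atTop_nhds_zero_nat _).const_add _).pow _
  have fin := ge_of_tendsto lim (Filter.eventually_atTop.2 ⟨1, hT⟩)
  rw [add_zero, add_zero] at fin
  exact_mod_cast fin

end Bez
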