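import Pool.Agent.Helper74.Bez.Jacobi

/-!
Determinantal representations `det (A0 + ∑ y_o L_o) = G(y)`, `y : Option ν → K`, and nondegenerate critical points of the
coordinate `y none` on the hypersurface `G = 0`.
-/
namespace Bez
open Finset Matrix

variable {K : Type*} [Field K] {μ ν σ : Type*} [Fintype μ] [DecidableEq μ] [Fintype ν] [DecidableEq ν]
  [Fintype σ] [DecidableEq σ]

/-- the affine pencil -/
def pen (A0 : Matrix μ μ K) (L : σ → Matrix μ μ K) (y : σ → K) : Matrix μ μ K :=
  A0 + ∑ v, y v • L v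

omit [DecidableEq μ] [DecidableEq σ] [Fintype μ] in
theorem pen_add (A0 : Matrix μ μ K) (L : σ → Matrix μ μ K) (y u : σ → K) (s : K) :
    pen A0 L (y + s • u) = pen A0 L y + s • (∑ v, u v • L v) := by
  unfold pen
  rw [Finset.smul_sum]
  simp only [Pi.add_apply, Pi.smul_apply, smul_eq_mul, add_smul, Finset.sum_add_distrib, smul_smul]
  abel

omit [Fintype σ] [DecidableEq σ] in
theorem ln_line (x u : σ → K) (s : K) (g : MvPolynomial σ K) :
    (ln x u g).eval s = MvPolynomial.eval (x + s • u) g := by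
  have h : ((Polynomial.aeval s).comp (ln x u)) =
      (MvPolynomial.aeval (x + s • u) : MvPolynomial σ K →ₐ[K] K) := by
    ext i
    simp [ln]
    ring
  have := DFunLike.congr_fun h g
  simpa [Polynomial.coe_aeval_eq_eval, MvPolynomial.aeval_eq_eval] using this

section
variable (A0 : Matrix μ μ K) (L : σ → Matrix μ μ K) (G : MvPolynomial σ K)
  (hdet : ∀ y, (pen A0 L y).det = MvPolynomial.eval y G)
include hdet

theorem tr_L [Infinite K] (y : σ → K) (v : σ) :
    ((pen A0 L y).adjugate * L v).trace = MvPolynomial.eval y (MvPolynomial.pderiv v G) := by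
  have h1 : (mln (pen A0 L y) (L v)).det = ln y (Pi.single v 1) G := by
    refine Polynomial.funext fun s => ?_
    rw [map_det_eval, mln_eval, ln_line, ← hdet, pen_add]
    congr 3
    rw [Finset.sum_eq_single v]
    · simp
    · intro b _ hb
      simp [Pi.single_eq_of_ne hb]
    · simp
  rw [← mln_det_deriv, h1, ln_deriv, Finset.sum_eq_single v]
  · simp
  · intro b _ hb
    simp [Pi.single_eq_of_ne hb]
  · simp

theorem tr_dadj [Infinite K] (y u : σ → K) (v : σ) :
    (dadj (pen A0 L y) (∑ w, u w • L w) * L v).trace =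
      ∑ j, MvPolynomial.eval y (MvPolynomial.pderiv j (MvPolynomial.pderiv v G)) * u j := by
  have h1 : ((mln (pen A0 L y) (∑ w, u w • L w)).adjugate * (L v).map Polynomial.C).trace =
      ln y u (MvPolynomial.pderiv v G) := by
    refine Polynomial.funext fun s => ?_
    rw [ln_line, ← tr_L A0 L G hdet (y + s • u) v, pen_add, ← mln_eval, ← map_adj_eval]
    simp only [trace, diag_apply, mul_apply, Polynomial.eval_finsetSum, Polynomial.eval_mul, map_apply,
      Polynomial.eval_C]
  have h2 := congrArg (fun p => (Polynomial.derivative p).eval 0) h1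
  simp only [ln_deriv] at h2
  rw [← h2]
  simp only [trace, diag_apply, mul_apply, Polynomial.eval_finsetSum, Polynomial.eval_mul, map_apply,
    Polynomial.eval_C, dadj, Polynomial.derivative_sum, Polynomial.derivative_mul,
    Polynomial.derivative_C, mul_zero, add_zero]

end

/-- linearised system at a nondegenerate critical point: only the zero solution -/
theorem lin_zero [Infinite K] (A0 : Matrix μ μ K) (L : Option ν → Matrix μ μ K)
    (G : MvPolynomial (Option ν) K) (hdet : ∀ y, (pen A0 L y).det = MvPolynomial.eval y G)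
    (y : Option ν → K) (k h w : μ → K) (c : K)
    (hH : ∀ u : ν → K, (∀ v, ∑ j, MvPolynomial.eval y
      (MvPolynomial.pderiv (some j) (MvPolynomial.pderiv (some v) G)) * u j = 0) → u = 0)
    (hadj : (pen A0 L y).adjugate = c • vecMulVec k h)
    (hk : pen A0 L y *ᵥ k = 0) (hh : h ᵥ* pen A0 L y = 0)
    (hker : ∀ k', pen A0 L y *ᵥ k' = 0 → ∃ a : K, k' = a • k)
    (hker' : ∀ h', h' ᵥ* pen A0 L y = 0 → ∃ b : K, h' = b • h)
    (hL : ∀ v, h ⬝ᵥ (L (some v) *ᵥ k) = 0) (hT : h ⬝ᵥ (L none *ᵥ k) = 1) (hw : w ⬝ᵥ k = 1)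
    (y' : Option ν → K) (s' : K) (k' h' : μ → K)
    (e1 : (∑ v, y' v • L v) *ᵥ k + pen A0 L y *ᵥ k' = 0)
    (e2 : h ᵥ* (∑ v, y' v • L v) + h' ᵥ* pen A0 L y = s' • w)
    (e3 : ∀ v, h' ⬝ᵥ (L (some v) *ᵥ k) + h ⬝ᵥ (L (some v) *ᵥ k') = 0)
    (e4 : w ⬝ᵥ k' = 0) (e5 : h' ⬝ᵥ (L none *ᵥ k) + h ⬝ᵥ (L none *ᵥ k') = 0) :
    y' = 0 ∧ s' = 0 ∧ k' = 0 ∧ h' = 0 := by
  set A := pen A0 L y with hA
  have hsum : h ⬝ᵥ ((∑ v, y' v • L v) *ᵥ k) = y' none := by
    rw [Fintype.sum_option, add_mulVec, dotProduct_add, smul_mulVec, dotProduct_smul, hT,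
      sum_mulVec, dotProduct_sum, Finset.sum_eq_zero, add_zero, smul_eq_mul, mul_one]
    intro v _
    rw [smul_mulVec, dotProduct_smul, hL, smul_zero]
  have hhA : ∀ z, h ⬝ᵥ (A *ᵥ z) = 0 := by
    intro z
    rw [dotProduct_mulVec, hh, zero_dotProduct]
  -- `t' = 0`
  have ht' : y' none = 0 := by
    have := congrArg (fun z => h ⬝ᵥ z) e1
    simp only [dotProduct_add, dotProduct_zero, hhA, hsum, add_zero] at this
    exact this
  rw [ht'] at hsum
  -- `s' = 0`
  have hs' : s' = 0 := by
    have := congrArg (fun z => z ⬝ᵥ k) e2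
    simp only [add_dotProduct, smul_dotProduct, hw, smul_eq_mul, mul_one] at this
    rw [← dotProduct_mulVec, hsum, ← dotProduct_mulVec, hk, dotProduct_zero, add_zero] at this
    exact this.symm
  subst hs'
  simp only [zero_smul] at e2
  -- the derivative of the adjugate
  set D := dadj A (∑ v, y' v • L v) with hD
  have htr : (A.adjugate * ∑ v, y' v • L v).trace = 0 := by
    rw [hadj, Matrix.smul_mul, vecMulVec_mul, trace_smul, trace_vecMulVec, dotProduct_comm,
      ← dotProduct_mulVec, hsum, smul_zero]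
  have hDA := dadj_mul A (∑ v, y' v • L v)
  have hAD := mul_dadj A (∑ v, y' v • L v)
  rw [htr, zero_smul] at hDA hAD
  set B := D - c • (vecMulVec k' h + vecMulVec k h') with hB
  have hAB : A * B = 0 := by
    rw [hB, Matrix.mul_sub, Matrix.mul_smul, Matrix.mul_add, mul_vecMulVec, mul_vecMulVec, hk,
      zero_vecMulVec, add_zero]
    have h1 : A * D = -(c • vecMulVec ((∑ v, y' v • L v) *ᵥ k) h) := by
      rw [← mul_vecMulVec, ← Matrix.mul_smul, ← hadj]
      exact eq_neg_of_add_eq_zero_left hAD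
    have h2 : A *ᵥ k' = -((∑ v, y' v • L v) *ᵥ k) := eq_neg_of_add_eq_zero_right e1
    rw [h1, h2, neg_vecMulVec, smul_neg, sub_self]
  have hBA : B * A = 0 := by
    rw [hB, Matrix.sub_mul, Matrix.smul_mul, Matrix.add_mul, vecMulVec_mul, vecMulVec_mul, hh,
      vecMulVec_zero, zero_add]
    have h1 : D * A = -(c • vecMulVec k (h ᵥ* (∑ v, y' v • L v))) := by
      rw [← vecMulVec_mul, ← Matrix.smul_mul, ← hadj]
      exact eq_neg_of_add_eq_zero_left hDA
    have h2 : h' ᵥ* A = -(h ᵥ* (∑ v, y' v • L v)) := eq_neg_of_add_eq_zero_right e2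
    rw [h1, h2, vecMulVec_neg, smul_neg, sub_self]
  -- `B = k z` with `z` in the left kernel
  have hcol : ∀ j, ∃ z : K, (fun i => B i j) = z • k := by
    intro j
    apply hker
    ext i
    have := congrFun (congrFun hAB i) j
    rw [mul_apply] at this
    exact this
  choose z hz using hcol
  have hBc : B = vecMulVec k z := by
    ext i j
    have := congrFun (hz j) i
    simp only [Pi.smul_apply, smul_eq_mul] at this
    rw [this, vecMulVec_apply, mul_comm]
  have hk0 : k ≠ 0 := by
    rintro rfl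
    simp at hw
  have hzA : z ᵥ* A = 0 := by
    obtain ⟨i0, hi0⟩ := Function.ne_iff.1 hk0
    rw [hBc, vecMulVec_mul] at hBA
    ext j
    have := congrFun (congrFun hBA i0) j
    rw [vecMulVec_apply, Matrix.zero_apply] at this
    exact (mul_eq_zero.1 this).resolve_left hi0
  obtain ⟨b, hb⟩ := hker' z hzA
  -- Hessian
  have hx' : (fun v => y' (some v)) = 0 := by
    apply hH
    intro v
    have h0 := tr_dadj A0 L G hdet y y' (some v)
    rw [← hA, ← hD, Fintype.sum_option, ht', mul_zero, zero_add] at h0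
    rw [← h0]
    have hDB : D = B + c • (vecMulVec k' h + vecMulVec k h') := by rw [hB, sub_add_cancel]
    rw [hDB, hBc, hb, Matrix.add_mul, Matrix.smul_mul, Matrix.add_mul, vecMulVec_mul, vecMulVec_mul,
      vecMulVec_mul, trace_add, trace_smul, trace_add, trace_vecMulVec, trace_vecMulVec,
      trace_vecMulVec, smul_vecMul, dotProduct_smul, dotProduct_comm, ← dotProduct_mulVec, hL,
      smul_zero, zero_add, dotProduct_comm, ← dotProduct_mulVec, dotProduct_comm k,
      ← dotProduct_mulVec, add_comm, e3 v, smul_zero]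
  have hy' : y' = 0 := by
    funext o
    rcases o with _ | v
    · exact ht'
    · exact congrFun hx' v
  subst hy'
  simp only [Pi.zero_apply, zero_smul, Finset.sum_const_zero, zero_mulVec, vecMul_zero, zero_add] at e1 e2
  obtain ⟨a, ha⟩ := hker k' e1
  have ha0 : a = 0 := by
    rw [ha, dotProduct_smul, hw, smul_eq_mul, mul_one] at e4
    exact e4
  obtain ⟨b', hb'⟩ := hker' h' e2
  have hk'0 : k' = 0 := by rw [ha, ha0, zero_smul]
  have hb0 : b' = 0 := by
    rw [hk'0, hb', mulVec_zero, dotProduct_zero, add_zero, smul_dotProduct, hT, smul_eq_mul, mul_one] at e5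
    exact e5
  exact ⟨rfl, rfl, hk'0, by rw [hb', hb0, zero_smul]⟩

end Bez
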