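import Pool.Agent.Helper74.Bez.Crit

/-!
The upper bound (U): if `det (A0 + ∑ y_o L_o) = G(y)`, `y : Option ν → K`, with matrices of size `m`, `n = |ν|`, then
the coordinate `y none` has at most `(4 e m / (n + 2)) ^ (n + 2)` nondegenerate critical points on the hypersurface
`G = 0` (`crit_bound`).  For `G = F(x) + t`: at most that many points where the gradient of `F` takes one common value
and the Hessian of `F` is nondegenerate (`crit_bound'`).
-/
namespace Bez
open Finset Matrix

variable {K : Type*} [Field K] {μ ν : Type*} [Fintype μ] [DecidableEq μ] [Fintype ν] [DecidableEq ν]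

/-- entries of the pencil as polynomials -/
noncomputable def PA (A0 : Matrix μ μ K) (L : Option ν → Matrix μ μ K) (a b : μ) :
    MvPolynomial (Option (Option ν) ⊕ (μ ⊕ μ)) K :=
  MvPolynomial.C (A0 a b) + ∑ o, MvPolynomial.C (L o a b) * MvPolynomial.X (Sum.inl (some o))

/-- the bilinear system; `none` of the first kind of variables is auxiliary -/
noncomputable def sys (A0 : Matrix μ μ K) (L : Option ν → Matrix μ μ K) (w : μ → K) :
    (μ ⊕ μ) ⊕ Option (Option ν) → MvPolynomial (Option (Option ν) ⊕ (μ ⊕ μ)) K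
  | Sum.inl (Sum.inl a) => ∑ b, PA A0 L a b * MvPolynomial.X (Sum.inr (Sum.inl b))
  | Sum.inl (Sum.inr b) => (∑ a, MvPolynomial.X (Sum.inr (Sum.inr a)) * PA A0 L a b) -
      MvPolynomial.X (Sum.inl none) * MvPolynomial.C (w b)
  | Sum.inr none => (∑ b, MvPolynomial.C (w b) * MvPolynomial.X (Sum.inr (Sum.inl b))) - MvPolynomial.C 1
  | Sum.inr (some none) => (∑ a, ∑ b, MvPolynomial.C (L none a b) *
      (MvPolynomial.X (Sum.inr (Sum.inr a)) * MvPolynomial.X (Sum.inr (Sum.inl b)))) - MvPolynomial.C 1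
  | Sum.inr (some (some v)) => ∑ a, ∑ b, MvPolynomial.C (L (some v) a b) *
      (MvPolynomial.X (Sum.inr (Sum.inr a)) * MvPolynomial.X (Sum.inr (Sum.inl b)))

/-- the point of the system -/
def pt (y : Option ν → K) (k h : μ → K) : Option (Option ν) ⊕ (μ ⊕ μ) → K
  | Sum.inl none => 0
  | Sum.inl (some o) => y o
  | Sum.inr (Sum.inl b) => k b
  | Sum.inr (Sum.inr a) => h a

theorem PA_mem (A0 : Matrix μ μ K) (L : Option ν → Matrix μ μ K) (a b : μ) :
    PA A0 L a b ∈ Wb K (Option (Option ν)) (μ ⊕ μ) 1 0 := by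
  have h0 : (MvPolynomial.C (A0 a b) : MvPolynomial (Option (Option ν) ⊕ (μ ⊕ μ)) K) ∈
      Wb K (Option (Option ν)) (μ ⊕ μ) 1 0 := Wb_mono (Nat.zero_le 1) le_rfl (Wb_C _)
  have h1 : ∀ (c : K) (i : Option (Option ν)), (MvPolynomial.C c * MvPolynomial.X (Sum.inl i) :
      MvPolynomial (Option (Option ν) ⊕ (μ ⊕ μ)) K) ∈ Wb K (Option (Option ν)) (μ ⊕ μ) 1 0 :=
    fun c i => Wb_mono le_rfl le_rfl (Wb_mul (Wb_C c) (Wb_Xl i))
  unfold PA
  exact Submodule.add_mem _ h0 (Submodule.sum_mem _ fun o _ => h1 _ _)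

theorem sys_mem1 (A0 : Matrix μ μ K) (L : Option ν → Matrix μ μ K) (w : μ → K) (i : μ ⊕ μ) :
    sys A0 L w (Sum.inl i) ∈ Wb K (Option (Option ν)) (μ ⊕ μ) 1 1 := by
  rcases i with a | b
  · refine Submodule.sum_mem _ fun b _ => ?_
    exact Wb_mul (PA_mem A0 L a b) (Wb_Xr _)
  · refine Submodule.sub_mem _ (Submodule.sum_mem _ fun a _ => ?_) ?_
    · exact Wb_mul (d1 := 0) (d2 := 1) (e1 := 1) (e2 := 0) (Wb_Xr _) (PA_mem A0 L a b)
    · exact Wb_mono le_rfl (Nat.zero_le _) (Wb_mul (d1 := 1) (d2 := 0) (e1 := 0) (e2 := 0) (Wb_Xl _) (Wb_C _))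

theorem sys_mem2 (A0 : Matrix μ μ K) (L : Option ν → Matrix μ μ K) (w : μ → K)
    (j : Option (Option ν)) : sys A0 L w (Sum.inr j) ∈ Wb K (Option (Option ν)) (μ ⊕ μ) 0 2 := by
  have hq : ∀ (c : K) (a b : μ), MvPolynomial.C c *
      (MvPolynomial.X (Sum.inr (Sum.inr a)) * MvPolynomial.X (Sum.inr (Sum.inl b))) ∈
      Wb K (Option (Option ν)) (μ ⊕ μ) 0 2 := by
    intro c a b
    exact Wb_mul (d1 := 0) (d2 := 0) (e1 := 0) (e2 := 2) (Wb_C _)
      (Wb_mul (d1 := 0) (d2 := 1) (e1 := 0) (e2 := 1) (Wb_Xr _) (Wb_Xr _))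
  rcases j with _ | _ | v
  · refine Submodule.sub_mem _ (Submodule.sum_mem _ fun b _ => ?_) (Wb_mono le_rfl (Nat.zero_le _) (Wb_C _))
    exact Wb_mono le_rfl (by norm_num) (Wb_mul (d1 := 0) (d2 := 0) (e1 := 0) (e2 := 1) (Wb_C _) (Wb_Xr _))
  · exact Submodule.sub_mem _ (Submodule.sum_mem _ fun a _ => Submodule.sum_mem _ fun b _ => hq _ a b)
      (Wb_mono le_rfl (Nat.zero_le _) (Wb_C _))
  · exact Submodule.sum_mem _ fun a _ => Submodule.sum_mem _ fun b _ => hq _ a b

omit [Fintype μ] [DecidableEq μ] [DecidableEq ν] in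
theorem eval_PA (A0 : Matrix μ μ K) (L : Option ν → Matrix μ μ K) (y : Option ν → K)
    (k h : μ → K) (a b : μ) : MvPolynomial.eval (pt y k h) (PA A0 L a b) = pen A0 L y a b := by
  simp only [PA, pen, pt, map_add, map_sum, map_mul, MvPolynomial.eval_C, MvPolynomial.eval_X,
    Matrix.add_apply, Matrix.sum_apply, Matrix.smul_apply, smul_eq_mul]
  congr 1
  exact Finset.sum_congr rfl fun v _ => mul_comm _ _

omit [DecidableEq μ] [DecidableEq ν] in
theorem eval_sys (A0 : Matrix μ μ K) (L : Option ν → Matrix μ μ K) (w : μ → K)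
    (y : Option ν → K) (k h : μ → K) (hk : pen A0 L y *ᵥ k = 0) (hh : h ᵥ* pen A0 L y = 0)
    (hL : ∀ v, h ⬝ᵥ (L (some v) *ᵥ k) = 0) (hT : h ⬝ᵥ (L none *ᵥ k) = 1) (hw : w ⬝ᵥ k = 1)
    (i : (μ ⊕ μ) ⊕ Option (Option ν)) : MvPolynomial.eval (pt y k h) (sys A0 L w i) = 0 := by
  have hq : ∀ M : Matrix μ μ K, MvPolynomial.eval (pt y k h) (∑ a, ∑ b, MvPolynomial.C (M a b) *
      (MvPolynomial.X (Sum.inr (Sum.inr a)) * MvPolynomial.X (Sum.inr (Sum.inl b)))) = h ⬝ᵥ (M *ᵥ k) := by
    intro M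
    simp only [map_sum, map_mul, MvPolynomial.eval_C, MvPolynomial.eval_X, pt, dotProduct, mulVec,
      Finset.mul_sum]
    exact Finset.sum_congr rfl fun a _ => Finset.sum_congr rfl fun b _ => by ring
  rcases i with (a | b) | (_ | _ | v)
  · simp only [sys, map_sum, map_mul, eval_PA, MvPolynomial.eval_X]
    exact congrFun hk a
  · simp only [sys, map_sub, map_sum, map_mul, eval_PA, MvPolynomial.eval_X]
    have := congrFun hh b
    simp only [vecMul, dotProduct, Pi.zero_apply] at this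
    simp only [pt, zero_mul, sub_zero]
    exact this
  · simp only [sys, map_sub, map_sum, map_mul, MvPolynomial.eval_X, MvPolynomial.eval_C, pt]
    exact sub_eq_zero.2 hw
  · simp only [sys, map_sub]
    rw [hq, hT, MvPolynomial.eval_C, sub_self]
  · simp only [sys]
    rw [hq, hL]

/-- `ln` of the pencil -/
theorem ln_PA (A0 : Matrix μ μ K) (L : Option ν → Matrix μ μ K) (P V : Option (Option ν) ⊕ (μ ⊕ μ) → K)
    (a b : μ) : (Polynomial.derivative (ln P V (PA A0 L a b))).eval 0 =
      (∑ o, V (Sum.inl (some o)) • L o) a b := by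
  rw [← jac_eq_ln (τ := Unit) (fun _ => PA A0 L a b) P V ()]
  rw [jac_eq_ln]
  simp only [PA, ln, map_add, map_sum, map_mul, MvPolynomial.aeval_X, MvPolynomial.algHom_C,
    Polynomial.algebraMap_eq, Polynomial.derivative_C, Polynomial.derivative_mul, Polynomial.derivative_X,
    Polynomial.eval_mul, Polynomial.eval_C, Polynomial.eval_finsetSum,
    zero_mul, mul_zero, zero_add, add_zero, one_mul,
    Matrix.sum_apply, Matrix.smul_apply, smul_eq_mul]
  exact Finset.sum_congr rfl fun v _ => mul_comm _ _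

omit [Fintype μ] [DecidableEq μ] [Fintype ν] [DecidableEq ν] in
theorem der_mul (P V : Option (Option ν) ⊕ (μ ⊕ μ) → K) (f g : MvPolynomial (Option (Option ν) ⊕ (μ ⊕ μ)) K) :
    (Polynomial.derivative (ln P V (f * g))).eval 0 =
      (Polynomial.derivative (ln P V f)).eval 0 * MvPolynomial.eval P g +
      MvPolynomial.eval P f * (Polynomial.derivative (ln P V g)).eval 0 := by
  rw [map_mul, Polynomial.derivative_mul, Polynomial.eval_add, Polynomial.eval_mul, Polynomial.eval_mul,
    ln_eval, ln_eval]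

omit [Fintype μ] [DecidableEq μ] [Fintype ν] [DecidableEq ν] in
theorem der_X (P V : Option (Option ν) ⊕ (μ ⊕ μ) → K) (i : Option (Option ν) ⊕ (μ ⊕ μ)) :
    (Polynomial.derivative (ln P V (MvPolynomial.X i))).eval 0 = V i := by
  simp [ln]

omit [Fintype μ] [DecidableEq μ] [Fintype ν] [DecidableEq ν] in
theorem der_C (P V : Option (Option ν) ⊕ (μ ⊕ μ) → K) (c : K) :
    (Polynomial.derivative (ln P V (MvPolynomial.C c))).eval 0 = 0 := by
  simp [ln]

omit [Fintype μ] [DecidableEq μ] [Fintype ν] [DecidableEq ν] in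
theorem der_sum {ι : Type*} (s : Finset ι) (P V : Option (Option ν) ⊕ (μ ⊕ μ) → K)
    (f : ι → MvPolynomial (Option (Option ν) ⊕ (μ ⊕ μ)) K) :
    (Polynomial.derivative (ln P V (∑ i ∈ s, f i))).eval 0 =
      ∑ i ∈ s, (Polynomial.derivative (ln P V (f i))).eval 0 := by
  rw [map_sum, Polynomial.derivative_sum, Polynomial.eval_finsetSum]

omit [Fintype μ] [DecidableEq μ] [Fintype ν] [DecidableEq ν] in
theorem der_sub (P V : Option (Option ν) ⊕ (μ ⊕ μ) → K) (f g : MvPolynomial (Option (Option ν) ⊕ (μ ⊕ μ)) K) :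
    (Polynomial.derivative (ln P V (f - g))).eval 0 =
      (Polynomial.derivative (ln P V f)).eval 0 - (Polynomial.derivative (ln P V g)).eval 0 := by
  rw [map_sub, Polynomial.derivative_sub, Polynomial.eval_sub]

/-- the Jacobian as a linear map -/
noncomputable def jacL {σ τ : Type*} [Fintype σ] [DecidableEq σ] (f : τ → MvPolynomial σ K) (q : σ → K) :
    (σ → K) →ₗ[K] (τ → K) where
  toFun := jac f q
  map_add' u v := by
    ext i
    simp [jac, mul_add, Finset.sum_add_distrib]
  map_smul' c v := by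
    ext i
    simp only [jac, Pi.smul_apply, smul_eq_mul, RingHom.id_apply, Finset.mul_sum]
    exact Finset.sum_congr rfl fun j _ => by ring

theorem jac_surj_of_inj {σ τ : Type*} [Fintype σ] [DecidableEq σ] [Fintype τ] (f : τ → MvPolynomial σ K) (q : σ → K)
    (hc : Fintype.card σ = Fintype.card τ) (h : ∀ v, jac f q v = 0 → v = 0) :
    Function.Surjective (jac f q) := by
  have hinj : Function.Injective (jacL f q) := by
    rw [← LinearMap.ker_eq_bot, LinearMap.ker_eq_bot']
    exact h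
  have := (LinearMap.injective_iff_surjective_of_finrank_eq_finrank (f := jacL f q) (by simp [hc])).1 hinj
  exact this

/-- surjectivity of the Jacobian of the system at a nondegenerate critical point -/
theorem sys_surj [Infinite K] (A0 : Matrix μ μ K) (L : Option ν → Matrix μ μ K)
    (G : MvPolynomial (Option ν) K) (hdet : ∀ y, (pen A0 L y).det = MvPolynomial.eval y G)
    (y : Option ν → K) (k h w : μ → K) (c : K)
    (hH : ∀ u : ν → K, (∀ v, ∑ j, MvPolynomial.eval y
      (MvPolynomial.pderiv (some j) (MvPolynomial.pderiv (some v) G)) * u j = 0) → u = 0)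
    (hadj : (pen A0 L y).adjugate = c • vecMulVec k h)
    (hk : pen A0 L y *ᵥ k = 0) (hh : h ᵥ* pen A0 L y = 0)
    (hker : ∀ k', pen A0 L y *ᵥ k' = 0 → ∃ a : K, k' = a • k)
    (hker' : ∀ h', h' ᵥ* pen A0 L y = 0 → ∃ b : K, h' = b • h)
    (hL : ∀ v, h ⬝ᵥ (L (some v) *ᵥ k) = 0) (hT : h ⬝ᵥ (L none *ᵥ k) = 1) (hw : w ⬝ᵥ k = 1) :
    Function.Surjective (jac (sys A0 L w) (pt y k h)) := by
  refine jac_surj_of_inj _ _ ?_ ?_
  · simp only [Fintype.card_sum, Fintype.card_option]
    ring
  intro V hV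
  have hV' : ∀ i, (Polynomial.derivative (ln (pt y k h) V (sys A0 L w i))).eval 0 = 0 := by
    intro i
    rw [← jac_eq_ln]
    exact congrFun hV i
  have hq : ∀ M : Matrix μ μ K, (Polynomial.derivative (ln (pt y k h) V (∑ a, ∑ b, MvPolynomial.C (M a b) *
      (MvPolynomial.X (Sum.inr (Sum.inr a)) * MvPolynomial.X (Sum.inr (Sum.inl b)))))).eval 0 =
      (fun a => V (Sum.inr (Sum.inr a))) ⬝ᵥ (M *ᵥ k) + h ⬝ᵥ (M *ᵥ (fun b => V (Sum.inr (Sum.inl b)))) := by
    intro M
    simp only [der_sum, der_mul, der_X, der_C]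
    simp only [MvPolynomial.eval_C, MvPolynomial.eval_X, map_mul, pt,
      dotProduct, mulVec, Finset.mul_sum, ← Finset.sum_add_distrib]
    exact Finset.sum_congr rfl fun a _ => Finset.sum_congr rfl fun b _ => by ring
  have key := lin_zero A0 L G hdet y k h w c hH hadj hk hh hker hker' hL hT hw
    (fun o => V (Sum.inl (some o))) (V (Sum.inl none))
    (fun b => V (Sum.inr (Sum.inl b))) (fun a => V (Sum.inr (Sum.inr a))) ?_ ?_ ?_ ?_ ?_
  · obtain ⟨z1, z3, z4, z5⟩ := key
    funext i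
    rcases i with (_ | o) | (b | a)
    · exact z3
    · exact congrFun z1 o
    · exact congrFun z4 b
    · exact congrFun z5 a
  · ext a
    have := hV' (Sum.inl (Sum.inl a))
    simp only [sys, der_sum, der_mul, ln_PA, der_X, eval_PA, MvPolynomial.eval_X, pt,
      Finset.sum_add_distrib] at this
    simp only [Pi.add_apply, mulVec, dotProduct, Pi.zero_apply]
    exact this
  · ext b
    have := hV' (Sum.inl (Sum.inr b))
    simp only [sys, der_sub, der_sum, der_mul, ln_PA, der_X, der_C, eval_PA, MvPolynomial.eval_X,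
      MvPolynomial.eval_C, pt, Finset.sum_add_distrib, mul_zero, add_zero] at this
    simp only [Pi.add_apply, vecMul, dotProduct, Pi.smul_apply, smul_eq_mul]
    rw [add_comm]
    exact sub_eq_zero.1 this
  · intro v
    have := hV' (Sum.inr (some (some v)))
    simp only [sys] at this
    rw [hq] at this
    exact this
  · have := hV' (Sum.inr none)
    simp only [sys, der_sub, der_sum, der_mul, der_X, der_C, MvPolynomial.eval_C, zero_mul, zero_add,
      sub_zero] at this
    simp only [dotProduct]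
    exact this
  · have := hV' (Sum.inr (some none))
    simp only [sys, der_sub] at this
    rw [hq, der_C, sub_zero] at this
    exact this

/-- a vector not orthogonal to finitely many nonzero vectors -/
theorem exists_generic [Infinite K] {ι : Type*} [Fintype ι] (k : ι → μ → K) (hk : ∀ p, k p ≠ 0) :
    ∃ w : μ → K, ∀ p, w ⬝ᵥ k p ≠ 0 := by
  have h : (∏ p, ∑ b, MvPolynomial.C (k p b) * MvPolynomial.X b : MvPolynomial μ K) ≠ 0 := by
    refine Finset.prod_ne_zero_iff.2 fun p _ h0 => hk p ?_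
    ext b
    have := congrArg (MvPolynomial.eval (Pi.single b 1)) h0
    simp only [map_sum, map_mul, MvPolynomial.eval_C, MvPolynomial.eval_X, map_zero] at this
    rw [Finset.sum_eq_single b] at this
    · simpa using this
    · intro c _ hc
      simp [Pi.single_eq_of_ne hc]
    · simp
  by_contra hcon
  push Not at hcon
  apply h
  refine MvPolynomial.funext fun w => ?_
  obtain ⟨p, hp⟩ := hcon w
  rw [map_prod, map_zero]
  refine Finset.prod_eq_zero (Finset.mem_univ p) ?_
  simp only [map_sum, map_mul, MvPolynomial.eval_C, MvPolynomial.eval_X]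
  rw [← hp, dotProduct]
  exact Finset.sum_congr rfl fun b _ => mul_comm _ _

/-- (U): nondegenerate critical points of `y none` on `G = 0` -/
theorem crit_card [Infinite K] (A0 : Matrix μ μ K) (L : Option ν → Matrix μ μ K)
    (G : MvPolynomial (Option ν) K) (hdet : ∀ y, (pen A0 L y).det = MvPolynomial.eval y G)
    {ι : Type*} [Fintype ι] (y : ι → Option ν → K) (hy : Function.Injective y)
    (h0 : ∀ p, MvPolynomial.eval (y p) G = 0)
    (hg : ∀ p v, MvPolynomial.eval (y p) (MvPolynomial.pderiv (some v) G) = 0)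
    (hn : ∀ p, MvPolynomial.eval (y p) (MvPolynomial.pderiv none G) ≠ 0)
    (hH : ∀ p, ∀ u : ν → K, (∀ v, ∑ j, MvPolynomial.eval (y p)
      (MvPolynomial.pderiv (some j) (MvPolynomial.pderiv (some v) G)) * u j = 0) → u = 0) (α β : ℕ) :
    Fintype.card ι * (α ^ (2 * Fintype.card μ) * β ^ (Fintype.card ν + 2)) ≤
      α ^ (Fintype.card ν + 2) * (α + 2 * β) ^ (2 * Fintype.card μ) := by
  classical
  set c : ι → K := fun p => MvPolynomial.eval (y p) (MvPolynomial.pderiv none G) with hc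
  have hs : ∀ p, ∃ k h : μ → K, (pen A0 L (y p)).adjugate = vecMulVec k h ∧
      pen A0 L (y p) *ᵥ k = 0 ∧ h ᵥ* pen A0 L (y p) = 0 ∧
      (∀ k', pen A0 L (y p) *ᵥ k' = 0 → ∃ a : K, k' = a • k) ∧
      (∀ h', h' ᵥ* pen A0 L (y p) = 0 → ∃ b : K, h' = b • h) ∧ k ≠ 0 := by
    intro p
    refine kernel_struct _ ((c p)⁻¹ • L none) ?_ ?_
    · rw [hdet, h0]
    · rw [Matrix.mul_smul, trace_smul, tr_L A0 L G hdet, smul_eq_mul]
      exact inv_mul_cancel₀ (hn p)
  choose k h hadj hk hh hker hker' hk0 using hs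
  obtain ⟨w, hw⟩ := exists_generic k hk0
  have hcn : ∀ p, c p ≠ 0 := hn
  -- normalisation
  set k1 : ι → μ → K := fun p => (w ⬝ᵥ k p)⁻¹ • k p with hk1
  set h1 : ι → μ → K := fun p => ((c p)⁻¹ * (w ⬝ᵥ k p)) • h p with hh1
  have hadj1 : ∀ p, (pen A0 L (y p)).adjugate = c p • vecMulVec (k1 p) (h1 p) := by
    intro p
    rw [hadj, hk1, hh1]
    ext i j
    simp only [vecMulVec_apply, Pi.smul_apply, smul_eq_mul, Matrix.smul_apply]
    have := hw p
    have := hcn p
    field_simp
  have hkk : ∀ p, pen A0 L (y p) *ᵥ k1 p = 0 := by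
    intro p
    rw [hk1]
    simp only [mulVec_smul, hk, smul_zero]
  have hhh : ∀ p, h1 p ᵥ* pen A0 L (y p) = 0 := by
    intro p
    rw [hh1]
    simp only [smul_vecMul, hh, smul_zero]
  have hkr : ∀ p, ∀ k', pen A0 L (y p) *ᵥ k' = 0 → ∃ a : K, k' = a • k1 p := by
    intro p k' hk'
    obtain ⟨a, ha⟩ := hker p k' hk'
    refine ⟨a * (w ⬝ᵥ k p), ?_⟩
    rw [hk1]
    simp only [smul_smul]
    rw [mul_assoc, mul_inv_cancel₀ (hw p), mul_one]
    exact ha
  have hkr' : ∀ p, ∀ h', h' ᵥ* pen A0 L (y p) = 0 → ∃ b : K, h' = b • h1 p := by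
    intro p h' hh'
    obtain ⟨b, hb⟩ := hker' p h' hh'
    refine ⟨b * ((c p)⁻¹ * (w ⬝ᵥ k p))⁻¹, ?_⟩
    rw [hh1]
    simp only [smul_smul]
    rw [mul_assoc, inv_mul_cancel₀ (mul_ne_zero (inv_ne_zero (hcn p)) (hw p)), mul_one]
    exact hb
  have hquad : ∀ p (M : Matrix μ μ K), c p * (h1 p ⬝ᵥ (M *ᵥ k1 p)) =
      ((pen A0 L (y p)).adjugate * M).trace := by
    intro p M
    rw [hadj1, Matrix.smul_mul, trace_smul, vecMulVec_mul, trace_vecMulVec, dotProduct_comm (k1 p),
      ← dotProduct_mulVec, smul_eq_mul]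
  have hL : ∀ p v, h1 p ⬝ᵥ (L (some v) *ᵥ k1 p) = 0 := by
    intro p v
    have := hquad p (L (some v))
    rw [tr_L A0 L G hdet, hg] at this
    exact (mul_eq_zero.1 this).resolve_left (hcn p)
  have hT : ∀ p, h1 p ⬝ᵥ (L none *ᵥ k1 p) = 1 := by
    intro p
    have := hquad p (L none)
    rw [tr_L A0 L G hdet] at this
    exact mul_left_cancel₀ (hcn p) (this.trans (mul_one _).symm)
  have hw1 : ∀ p, w ⬝ᵥ k1 p = 1 := by
    intro p
    rw [hk1]
    simp only [dotProduct_smul, smul_eq_mul]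
    exact inv_mul_cancel₀ (hw p)
  have hb := bez (sys A0 L w) (fun p => pt (y p) (k1 p) (h1 p)) ?_
    (fun p i => eval_sys A0 L w (y p) (k1 p) (h1 p) (hkk p) (hhh p) (hL p) (hT p) (hw1 p) i)
    (fun p => sys_surj A0 L G hdet (y p) (k1 p) (h1 p) w (c p) (hH p) (hadj1 p) (hkk p) (hhh p)
      (hkr p) (hkr' p) (hL p) (hT p) (hw1 p))
    (sys_mem1 A0 L w) (sys_mem2 A0 L w) ?_ α β
  · simp only [Fintype.card_sum, Fintype.card_option] at hb
    have e2 : Fintype.card μ + Fintype.card μ = 2 * Fintype.card μ := by ring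
    rw [e2, show Fintype.card ν + 1 + 1 = Fintype.card ν + 2 by ring] at hb
    have hpos : 0 < (Fintype.card ν + 2).factorial * (2 * Fintype.card μ).factorial := by positivity
    refine le_of_mul_le_mul_right ?_ hpos
    refine hb.trans (le_of_eq ?_)
    ring
  · intro p q hpq
    apply hy
    funext o
    exact congrFun hpq (Sum.inl (some o))
  · simp only [Fintype.card_sum, Fintype.card_option]
    ring

/-- numerical consequence -/
theorem num_bound (S m n : ℕ) (hm : 0 < m) (h : ∀ α β : ℕ,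
    S * (α ^ (2 * m) * β ^ (n + 2)) ≤ α ^ (n + 2) * (α + 2 * β) ^ (2 * m)) :
    (S : ℝ) ≤ (4 * Real.exp 1 * m / (n + 2 : ℕ)) ^ (n + 2) := by
  set M := n + 2 with hM
  have h := h (4 * m) M
  have h' : (S : ℝ) * ((4 * m : ℝ) ^ (2 * m) * (M : ℝ) ^ M) ≤
      (4 * m : ℝ) ^ M * (4 * m + 2 * M : ℝ) ^ (2 * m) := by
    exact_mod_cast h
  have hm' : (0 : ℝ) < m := by exact_mod_cast hm
  have hMp : (0 : ℝ) < M := by
    rw [hM]
    positivity
  have e1 : (4 * m + 2 * M : ℝ) ^ (2 * m) = (4 * m : ℝ) ^ (2 * m) * (1 + M / (2 * m : ℝ)) ^ (2 * m) := by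
    rw [← mul_pow]
    congr 1
    field_simp
    ring
  have e2 : (1 + M / (2 * m : ℝ)) ^ (2 * m) ≤ Real.exp 1 ^ M := by
    have h3 : (1 + M / (2 * m : ℝ)) ≤ Real.exp (M / (2 * m : ℝ)) := by
      have := Real.add_one_le_exp (M / (2 * m : ℝ))
      linarith
    calc (1 + M / (2 * m : ℝ)) ^ (2 * m) ≤ (Real.exp (M / (2 * m : ℝ))) ^ (2 * m) := by
          gcongr
      _ = Real.exp M := by
          rw [← Real.exp_nat_mul]
          congr 1
          push_cast
          field_simp
      _ = Real.exp 1 ^ M := by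
          rw [← Real.exp_nat_mul, mul_one]
  rw [e1] at h'
  have hpos : (0 : ℝ) < (4 * m : ℝ) ^ (2 * m) := by positivity
  have h4 : (S : ℝ) * (M : ℝ) ^ M ≤ (4 * m : ℝ) ^ M * (1 + M / (2 * m : ℝ)) ^ (2 * m) := by
    refine le_of_mul_le_mul_left ?_ hpos
    calc (4 * m : ℝ) ^ (2 * m) * ((S : ℝ) * (M : ℝ) ^ M)
        = (S : ℝ) * ((4 * m : ℝ) ^ (2 * m) * (M : ℝ) ^ M) := by ring
      _ ≤ (4 * m : ℝ) ^ M * ((4 * m : ℝ) ^ (2 * m) * (1 + M / (2 * m : ℝ)) ^ (2 * m)) := h'
      _ = _ := by ring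
  rw [div_pow, le_div_iff₀ (by positivity)]
  calc (S : ℝ) * (M : ℝ) ^ M ≤ (4 * m : ℝ) ^ M * (1 + M / (2 * m : ℝ)) ^ (2 * m) := h4
    _ ≤ (4 * m : ℝ) ^ M * Real.exp 1 ^ M := by gcongr
    _ = (4 * Real.exp 1 * m) ^ M := by rw [← mul_pow]; ring

/-- (U), final form: critical points of `y none` on the hypersurface `G = 0` -/
theorem crit_bound [Infinite K] (A0 : Matrix μ μ K) (L : Option ν → Matrix μ μ K)
    (G : MvPolynomial (Option ν) K) (hdet : ∀ y : Option ν → K, (A0 + ∑ o, y o • L o).det = MvPolynomial.eval y G)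
    {ι : Type*} [Fintype ι] (y : ι → Option ν → K) (hy : Function.Injective y)
    (h0 : ∀ p, MvPolynomial.eval (y p) G = 0)
    (hg : ∀ p v, MvPolynomial.eval (y p) (MvPolynomial.pderiv (some v) G) = 0)
    (hn : ∀ p, MvPolynomial.eval (y p) (MvPolynomial.pderiv none G) ≠ 0)
    (hH : ∀ p, ∀ u : ν → K, (∀ v, ∑ j, MvPolynomial.eval (y p)
      (MvPolynomial.pderiv (some j) (MvPolynomial.pderiv (some v) G)) * u j = 0) → u = 0) :
    (Fintype.card ι : ℝ) ≤
      (4 * Real.exp 1 * Fintype.card μ / (Fintype.card ν + 2 : ℕ)) ^ (Fintype.card ν + 2) := by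
  rcases isEmpty_or_nonempty ι with hι | ⟨⟨p0⟩⟩
  · rw [Fintype.card_eq_zero]
    simp only [Nat.cast_zero]
    positivity
  -- `μ` is nonempty
  have hm : 0 < Fintype.card μ := by
    by_contra hm0
    have : IsEmpty μ := Fintype.card_eq_zero_iff.1 (by omega)
    have h1 := hdet (y p0)
    rw [det_isEmpty, h0] at h1
    exact one_ne_zero h1
  exact num_bound _ _ _ hm fun α β => crit_card A0 L G hdet y hy h0 hg hn hH α β

/-- (U) for `F(x) + t`: points with one common gradient and nondegenerate Hessian -/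
theorem crit_bound' [Infinite K] (A0 : Matrix μ μ K) (L : ν → Matrix μ μ K) (T : Matrix μ μ K)
    (F : MvPolynomial ν K)
    (hdet : ∀ (x : ν → K) (t : K), (A0 + (∑ v, x v • L v) + t • T).det = MvPolynomial.eval x F + t)
    {ι : Type*} [Fintype ι] (x : ι → ν → K) (hx : Function.Injective x) (g : ν → K)
    (hg : ∀ p v, MvPolynomial.eval (x p) (MvPolynomial.pderiv v F) = g v)
    (hH : ∀ p, (Matrix.of fun i j => MvPolynomial.eval (x p)
      (MvPolynomial.pderiv i (MvPolynomial.pderiv j F))).det ≠ 0) :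
    (Fintype.card ι : ℝ) ≤
      (4 * Real.exp 1 * Fintype.card μ / (Fintype.card ν + 2 : ℕ)) ^ (Fintype.card ν + 2) := by
  -- `G(y) = F(y some) + y none - ∑ g v (y some v)`
  set G : MvPolynomial (Option ν) K := MvPolynomial.rename some F + MvPolynomial.X none -
    ∑ v, MvPolynomial.C (g v) * MvPolynomial.X (some v) with hG
  have hren : ∀ (y : Option ν → K) (q : MvPolynomial ν K), MvPolynomial.eval y (MvPolynomial.rename some q) =
      MvPolynomial.eval (fun v => y (some v)) q := by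
    intro y q
    rw [MvPolynomial.eval_rename]
    rfl
  have hps : ∀ v, MvPolynomial.pderiv (some v) G =
      MvPolynomial.rename some (MvPolynomial.pderiv v F) - MvPolynomial.C (g v) := by
    intro v
    rw [hG, map_sub, map_add, MvPolynomial.pderiv_rename (Option.some_injective ν),
      MvPolynomial.pderiv_X_of_ne (by simp), add_zero, map_sum, Finset.sum_eq_single v]
    · simp
    · intro b _ hb
      rw [MvPolynomial.pderiv_C_mul, MvPolynomial.pderiv_X_of_ne (by simpa using hb), mul_zero]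
    · simp
  have hpn : ∀ y, MvPolynomial.eval y (MvPolynomial.pderiv none G) = 1 := by
    intro y
    have h1 : MvPolynomial.pderiv none (MvPolynomial.rename (some : ν → Option ν) F) = 0 := by
      apply MvPolynomial.pderiv_eq_zero_of_notMem_vars
      intro h
      have := MvPolynomial.vars_rename (some : ν → Option ν) F h
      simp at this
    rw [hG, map_sub, map_add, h1, MvPolynomial.pderiv_X_self, map_sum, Finset.sum_eq_zero]
    · simp
    · intro v _
      rw [MvPolynomial.pderiv_C_mul, MvPolynomial.pderiv_X_of_ne (by simp), mul_zero]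
  set A1 : Option ν → Matrix μ μ K := fun o => o.elim T (fun v => L v - g v • T) with hA1
  set y : ι → Option ν → K := fun p o => o.elim (-(MvPolynomial.eval (x p) F - ∑ v, g v * x p v)) (x p) with hy
  refine crit_bound A0 A1 G ?_ y ?_ ?_ ?_ ?_ ?_
  · intro z
    have e : A0 + ∑ o, z o • A1 o = A0 + (∑ v, z (some v) • L v) + (z none - ∑ v, g v * z (some v)) • T := by
      rw [Fintype.sum_option]
      simp only [hA1, Option.elim_none, Option.elim_some, smul_sub, Finset.sum_sub_distrib, smul_smul]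
      rw [sub_smul, Finset.sum_smul]
      have : ∑ v, (z (some v) * g v) • T = ∑ v, (g v * z (some v)) • T :=
        Finset.sum_congr rfl fun v _ => by rw [mul_comm]
      rw [this]
      abel
    rw [e, hdet, hG]
    simp only [map_sub, map_add, hren, map_sum, map_mul, MvPolynomial.eval_C, MvPolynomial.eval_X]
    ring
  · intro p q hpq
    apply hx
    funext v
    exact congrFun hpq (some v)
  · intro p
    rw [hG]
    simp only [map_sub, map_add, hren, map_sum, map_mul, MvPolynomial.eval_C, MvPolynomial.eval_X, hy,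
      Option.elim_none, Option.elim_some]
    ring
  · intro p v
    rw [hps, map_sub, hren, MvPolynomial.eval_C, sub_eq_zero]
    exact hg p v
  · intro p
    rw [hpn]
    exact one_ne_zero
  · intro p u hu
    have hu' : ∀ v, ∑ j, MvPolynomial.eval (x p) (MvPolynomial.pderiv j (MvPolynomial.pderiv v F)) * u j = 0 := by
      intro v
      rw [← hu v]
      refine Finset.sum_congr rfl fun j _ => ?_
      rw [hps, map_sub, MvPolynomial.pderiv_C, sub_zero, MvPolynomial.pderiv_rename (Option.some_injective ν),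
        hren]
      rfl
    have hz : u ᵥ* (Matrix.of fun i j => MvPolynomial.eval (x p)
        (MvPolynomial.pderiv i (MvPolynomial.pderiv j F))) = 0 := by
      ext v
      simp only [vecMul, dotProduct, of_apply, Pi.zero_apply]
      rw [← hu' v]
      exact Finset.sum_congr rfl fun j _ => mul_comm _ _
    exact Matrix.eq_zero_of_vecMul_eq_zero (hH p) hz

end Bez
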