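import Pool.Agent.Helper74.Bez.Count

/-!
Jacobi's formula and first/second order identities for the adjugate along a matrix line `A + s B`.
-/
namespace Bez
open Finset Matrix Polynomial

variable {K : Type*} [Field K] {μ : Type*} [Fintype μ] [DecidableEq μ]

theorem deriv_det (M : Matrix μ μ K[X]) :
    derivative M.det = (M.adjugate * M.map derivative).trace := by
  have h1 : derivative M.det = ∑ j, (M.updateCol j (fun i => derivative (M i j))).det := by
    simp only [det_apply, map_sum]
    rw [Finset.sum_comm]
    refine Finset.sum_congr rfl fun σ _ => ?_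
    have h2 : ∀ (z : ℤˣ) (q : K[X]), derivative (z • q) = z • derivative q := by
      intro z q
      rw [Units.smul_def, Units.smul_def, derivative_smul]
    rw [h2, Polynomial.derivative_prod_finset, Finset.smul_sum]
    refine Finset.sum_congr rfl fun j _ => ?_
    congr 1
    rw [← Finset.mul_prod_erase univ _ (Finset.mem_univ j), mul_comm]
    congr 1
    · simp
    · refine Finset.prod_congr rfl fun i hi => ?_
      rw [updateCol_ne (Finset.ne_of_mem_erase hi)]
  rw [h1, trace]
  refine Finset.sum_congr rfl fun j _ => ?_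
  rw [← cramer_apply, cramer_eq_adjugate_mulVec]
  rfl

/-- the line `A + s B` -/
noncomputable def mln (A B : Matrix μ μ K) : Matrix μ μ K[X] := A.map C + (X : K[X]) • B.map C

omit [Fintype μ] [DecidableEq μ] in
theorem mln_eval (A B : Matrix μ μ K) (s : K) : (mln A B).map (eval s) = A + s • B := by
  ext i j
  simp only [mln, map_apply, Matrix.add_apply, Matrix.smul_apply, smul_eq_mul, eval_add, eval_mul,
    eval_C, eval_X]

omit [Fintype μ] [DecidableEq μ] in
theorem mln_deriv (A B : Matrix μ μ K) : (mln A B).map derivative = B.map C := by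
  ext1 i j
  simp [mln]

theorem map_det_eval (M : Matrix μ μ K[X]) (s : K) : eval s M.det = (M.map (eval s)).det := by
  have := RingHom.map_det (evalRingHom s) M
  simpa using this

theorem map_adj_eval (M : Matrix μ μ K[X]) (s : K) :
    M.adjugate.map (eval s) = (M.map (eval s)).adjugate := by
  have := RingHom.map_adjugate (evalRingHom s) M
  simpa using this

theorem mln_det_deriv (A B : Matrix μ μ K) :
    (derivative (mln A B).det).eval 0 = (A.adjugate * B).trace := by
  rw [deriv_det, mln_deriv, trace, eval_finsetSum, trace]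
  refine Finset.sum_congr rfl fun i _ => ?_
  simp only [diag_apply, mul_apply, eval_finsetSum, eval_mul, map_apply, eval_C]
  refine Finset.sum_congr rfl fun j _ => ?_
  congr 1
  have := congrFun (congrFun (map_adj_eval (mln A B) 0) i) j
  rw [mln_eval] at this
  simpa using this

/-- derivative of the adjugate along `A + s B` at `s = 0` -/
noncomputable def dadj (A B : Matrix μ μ K) : Matrix μ μ K :=
  (mln A B).adjugate.map (fun p => (derivative p).eval 0)

theorem dadj_mul (A B : Matrix μ μ K) :
    dadj A B * A + A.adjugate * B = (A.adjugate * B).trace • (1 : Matrix μ μ K) := by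
  ext i j
  have h := congrArg (fun p : K[X] => (derivative p).eval 0)
    (congrFun (congrFun (adjugate_mul (mln A B)) i) j)
  have e0 : ∀ a b, eval 0 ((mln A B).adjugate a b) = A.adjugate a b := by
    intro a b
    have := congrFun (congrFun (map_adj_eval (mln A B) 0) a) b
    rw [mln_eval] at this
    simpa using this
  have e1 : ∀ a b, eval 0 (mln A B a b) = A a b := by
    intro a b
    simp [mln]
  have e2 : ∀ a b, eval 0 (derivative (mln A B a b)) = B a b := by
    intro a b
    simp [mln]
  simp only [mul_apply, derivative_sum, eval_finsetSum, derivative_mul, eval_add, eval_mul, e0, e1,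
    e2] at h
  simp only [Matrix.add_apply, mul_apply, dadj, map_apply, ← Finset.sum_add_distrib]
  rw [h]
  simp only [Matrix.smul_apply, smul_eq_mul, derivative_mul, eval_add, eval_mul, mln_det_deriv]
  by_cases hij : i = j
  · subst hij
    simp
  · simp [one_apply_ne hij]

theorem mul_dadj (A B : Matrix μ μ K) :
    A * dadj A B + B * A.adjugate = (A.adjugate * B).trace • (1 : Matrix μ μ K) := by
  ext i j
  have h := congrArg (fun p : K[X] => (derivative p).eval 0)
    (congrFun (congrFun (mul_adjugate (mln A B)) i) j)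
  have e0 : ∀ a b, eval 0 ((mln A B).adjugate a b) = A.adjugate a b := by
    intro a b
    have := congrFun (congrFun (map_adj_eval (mln A B) 0) a) b
    rw [mln_eval] at this
    simpa using this
  have e1 : ∀ a b, eval 0 (mln A B a b) = A a b := by
    intro a b
    simp [mln]
  have e2 : ∀ a b, eval 0 (derivative (mln A B a b)) = B a b := by
    intro a b
    simp [mln]
  simp only [mul_apply, derivative_sum, eval_finsetSum, derivative_mul, eval_add, eval_mul, e0, e1,
    e2] at h
  simp only [Matrix.add_apply, mul_apply, dadj, map_apply, ← Finset.sum_add_distrib]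
  have h' : ∑ x, (A i x * eval 0 (derivative ((mln A B).adjugate x j)) + B i x * A.adjugate x j) =
      ∑ x, (B i x * A.adjugate x j + A i x * eval 0 (derivative ((mln A B).adjugate x j))) :=
    Finset.sum_congr rfl fun x _ => add_comm _ _
  rw [h', h]
  simp only [Matrix.smul_apply, smul_eq_mul, derivative_mul, eval_add, eval_mul, mln_det_deriv]
  by_cases hij : i = j
  · subst hij
    simp
  · simp [one_apply_ne hij]

theorem ker_dep (A T : Matrix μ μ K) (hT : (A.adjugate * T).trace = 1) (k k' : μ → K)
    (hk : A *ᵥ k = 0) (hk' : A *ᵥ k' = 0) (i j : μ) : k i * k' j = k j * k' i := by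
  by_contra hne
  have hd : k i * k' j - k j * k' i ≠ 0 := sub_ne_zero.2 hne
  set δ := k i * k' j - k j * k' i with hδ
  set φ : μ → K := δ⁻¹ • (k' j • Pi.single i 1 - k' i • Pi.single j 1) with hφ
  have h1 : φ ⬝ᵥ k = 1 := by
    rw [hφ]
    simp only [smul_dotProduct, sub_dotProduct, single_dotProduct, smul_eq_mul, one_mul]
    rw [show k' j * k i - k' i * k j = δ by rw [hδ]; ring]
    exact inv_mul_cancel₀ hd
  have h2 : φ ⬝ᵥ k' = 0 := by
    rw [hφ]
    simp only [smul_dotProduct, sub_dotProduct, single_dotProduct, smul_eq_mul, one_mul]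
    rw [show k' j * k' i - k' i * k' j = 0 by ring, mul_zero]
  have hk'0 : k' ≠ 0 := by
    rintro rfl
    apply hd
    rw [hδ]
    simp
  have hz : ∀ e : μ → K, A.adjugate *ᵥ e = 0 := by
    intro e
    have h3 := dadj_mul A (vecMulVec e φ)
    have h4 := congrArg (fun M => M *ᵥ k') h3
    have h5 := congrArg (fun M => M *ᵥ k) h3
    simp only [add_mulVec, ← mulVec_mulVec, hk, hk', mulVec_zero, zero_add, vecMulVec_mulVec, h1, h2,
      smul_mulVec, one_mulVec, MulOpposite.op_zero, zero_smul, MulOpposite.op_one, one_smul] at h4 h5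
    rw [h5]
    rcases smul_eq_zero.1 h4.symm with h6 | h6
    · rw [h6, zero_smul]
    · exact absurd h6 hk'0
  have hA0 : A.adjugate = 0 := by
    ext a b
    have := congrFun (hz (Pi.single b 1)) a
    rw [mulVec_single_one] at this
    exact this
  rw [hA0, Matrix.zero_mul, trace_zero] at hT
  exact zero_ne_one hT

/-- kernel structure: if `det A = 0` and `tr (adj A * T) = 1` for some `T`, then `adj A = k h`, `A k = 0`, `h A = 0` and
the two kernels are spanned by `k` and `h` -/
theorem kernel_struct (A T : Matrix μ μ K) (hA : A.det = 0)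
    (hT : (A.adjugate * T).trace = 1) :
    ∃ k h : μ → K, A.adjugate = vecMulVec k h ∧ A *ᵥ k = 0 ∧ h ᵥ* A = 0 ∧
      (∀ k', A *ᵥ k' = 0 → ∃ a : K, k' = a • k) ∧ (∀ h', h' ᵥ* A = 0 → ∃ b : K, h' = b • h) ∧ k ≠ 0 := by
  have h2 := mul_dadj A T
  rw [hT, one_smul] at h2
  have hAa : A * A.adjugate = 0 := by rw [mul_adjugate, hA, zero_smul]
  have haA : A.adjugate * A = 0 := by rw [adjugate_mul, hA, zero_smul]
  obtain ⟨k, hk0', hk⟩ := exists_mulVec_eq_zero_iff.2 hA
  obtain ⟨i1, hi1⟩ := Function.ne_iff.1 hk0'
  rw [Pi.zero_apply] at hi1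
  have hker : ∀ k', A *ᵥ k' = 0 → ∃ a : K, k' = a • k := by
    intro k' hk'
    refine ⟨k' i1 / k i1, ?_⟩
    ext j
    have := ker_dep A T hT k k' hk hk' i1 j
    rw [Pi.smul_apply, smul_eq_mul]
    field_simp
    linear_combination this
  -- columns
  have hcol : ∀ j, ∃ c : K, (fun i => A.adjugate i j) = c • k := by
    intro j
    apply hker
    ext i
    have := congrFun (congrFun hAa i) j
    rw [mul_apply] at this
    exact this
  choose h hh using hcol
  have hadj : A.adjugate = vecMulVec k h := by
    ext i j
    have := congrFun (hh j) i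
    simp only [Pi.smul_apply, smul_eq_mul] at this
    rw [this, vecMulVec_apply, mul_comm]
  obtain ⟨i0, hi0⟩ := Function.ne_iff.1 hk0'
  have hhA : h ᵥ* A = 0 := by
    ext j
    have := congrFun (congrFun haA i0) j
    rw [hadj, mul_apply] at this
    simp only [vecMulVec_apply, Matrix.zero_apply] at this
    have e : ∑ x, k i0 * h x * A x j = k i0 * (h ᵥ* A) j := by
      simp only [vecMul, dotProduct, Finset.mul_sum, mul_assoc]
    rw [e] at this
    exact (mul_eq_zero.1 this).resolve_left hi0
  refine ⟨k, h, hadj, hk, hhA, hker, ?_, hk0'⟩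
  intro h' hh'
  refine ⟨(h' ᵥ* T) ⬝ᵥ k, ?_⟩
  have h3 := congrArg (fun M => h' ᵥ* M) h2
  simp only [vecMul_add, vecMul_one, ← vecMul_vecMul, hh', zero_vecMul, zero_add] at h3
  rw [hadj, vecMul_vecMulVec] at h3
  exact h3.symm

end Bez
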