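import Mathlib

/-!
Elementary Bezout, linear independence: if `f : τ → K[σ]` vanish at points `p k` with surjective Jacobian
`K^σ → K^τ` and the `g k` interpolate (`g k (p l) = δ`), then all products `g k * ∏ f_i ^ (a_i)` are linearly
independent.
-/
namespace Bez
open MvPolynomial Finset

variable {K : Type*} [Field K] {σ : Type*} [Fintype σ] [DecidableEq σ]

/-- restriction to the line `q + s v` -/
noncomputable def ln (q v : σ → K) : MvPolynomial σ K →ₐ[K] Polynomial K :=
  aeval (fun i => Polynomial.C (q i) + Polynomial.X * Polynomial.C (v i))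

omit [Fintype σ] [DecidableEq σ] in
theorem ln_eval (q v : σ → K) (g : MvPolynomial σ K) : (ln q v g).eval 0 = eval q g := by
  have h : ((Polynomial.aeval (0 : K)).comp (ln q v)) = (aeval q : MvPolynomial σ K →ₐ[K] K) := by
    ext i
    simp [ln]
  have := DFunLike.congr_fun h g
  simpa [Polynomial.coe_aeval_eq_eval, aeval_eq_eval] using this

theorem ln_deriv (q v : σ → K) (g : MvPolynomial σ K) :
    (Polynomial.derivative (ln q v g)).eval 0 = ∑ j, eval q (pderiv j g) * v j := by
  induction g using MvPolynomial.induction_on with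
  | C a => simp [ln]
  | add f g hf hg => simp [hf, hg, add_mul, sum_add_distrib]
  | mul_X f i hf =>
    rw [map_mul, Polynomial.derivative_mul, Polynomial.eval_add, Polynomial.eval_mul,
      Polynomial.eval_mul, hf, ln_eval, ln_eval]
    simp only [Derivation.leibniz, pderiv_X, smul_eq_mul, map_add, map_mul, add_mul,
      sum_add_distrib]
    have h1 : (Polynomial.derivative (ln q v (X i))).eval 0 = v i := by
      simp [ln]
    rw [h1]
    simp only [eval_X]
    have h2 : ∑ x, eval q f * (eval q) ((Pi.single x 1 : σ → MvPolynomial σ K) i) * v x =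
        eval q f * v i := by
      rw [Finset.sum_eq_single i]
      · simp
      · intro b _ hb
        simp [Pi.single_eq_of_ne hb.symm]
      · simp
    rw [h2, add_comm, sum_mul]
    congr 1
    exact Finset.sum_congr rfl fun x _ => by ring

/-- a polynomial vanishing at `0` is `X * r`, `r(0) =` derivative at `0` -/
theorem ln_fac (u : Polynomial K) (h : u.eval 0 = 0) :
    ∃ r : Polynomial K, u = Polynomial.X * r ∧ r.eval 0 = (Polynomial.derivative u).eval 0 := by
  refine ⟨u.divX, ?_, ?_⟩
  · have := Polynomial.X_mul_divX_add u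
    rw [← Polynomial.coeff_zero_eq_eval_zero] at h
    rw [h] at this
    simpa using this.symm
  · have h0 : u = Polynomial.X * u.divX := by
      have := Polynomial.X_mul_divX_add u
      rw [← Polynomial.coeff_zero_eq_eval_zero] at h
      rw [h] at this
      simpa using this.symm
    conv_rhs => rw [h0]
    simp

variable {τ : Type*} [Fintype τ]

/-- the Jacobian `K^σ → K^τ` of `f` at `q` -/
noncomputable def jac (f : τ → MvPolynomial σ K) (q v : σ → K) : τ → K :=
  fun i => ∑ j, eval q (pderiv j (f i)) * v j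

omit [Fintype τ] in
theorem jac_eq_ln (f : τ → MvPolynomial σ K) (q v : σ → K) (i : τ) :
    jac f q v i = (Polynomial.derivative (ln q v (f i))).eval 0 := (ln_deriv q v (f i)).symm

/-- local lemma at one point -/
theorem local_zero [Infinite K] (f : τ → MvPolynomial σ K) (q : σ → K) (hf : ∀ i, eval q (f i) = 0)
    (hJ : Function.Surjective (jac f q))
    (T : Finset (τ →₀ ℕ)) (h : (τ →₀ ℕ) → MvPolynomial σ K)
    (hs : ∑ a ∈ T, h a * ∏ i, f i ^ a i = 0) (M : ℕ)
    (hM : ∀ a ∈ T, (∑ i, a i) < M → h a = 0) :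
    ∀ a ∈ T, (∑ i, a i) = M → eval q (h a) = 0 := by
  -- for every direction
  classical
  have key : ∀ w : τ → K, ∑ a ∈ T.filter (fun a => ∑ i, a i = M), eval q (h a) * ∏ i, w i ^ a i = 0 := by
    intro w
    obtain ⟨v, hv⟩ := hJ w
    have hr : ∀ i, ∃ r : Polynomial K, ln q v (f i) = Polynomial.X * r ∧ r.eval 0 = w i := by
      intro i
      obtain ⟨r, h1, h2⟩ := ln_fac (ln q v (f i)) (by rw [ln_eval, hf])
      refine ⟨r, h1, ?_⟩
      rw [h2, ln_deriv, ← hv]
      rfl
    choose r hr1 hr2 using hr
    have e1 : ∑ a ∈ T, ln q v (h a) * (Polynomial.X ^ (∑ i, a i) * ∏ i, r i ^ a i) = 0 := by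
      have := congrArg (ln q v) hs
      rw [map_sum, map_zero] at this
      rw [← this]
      refine Finset.sum_congr rfl fun a _ => ?_
      rw [map_mul, map_prod]
      congr 1
      rw [← Finset.prod_pow_eq_pow_sum, ← Finset.prod_mul_distrib]
      refine Finset.prod_congr rfl fun i _ => ?_
      rw [map_pow, hr1, mul_pow]
    -- divide by `X ^ M`
    have e2 : Polynomial.X ^ M * (∑ a ∈ T, ln q v (h a) *
        (Polynomial.X ^ ((∑ i, a i) - M) * ∏ i, r i ^ a i)) = 0 := by
      rw [← e1, Finset.mul_sum]
      refine Finset.sum_congr rfl fun a ha => ?_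
      rcases lt_or_ge (∑ i, a i) M with hlt | hge
      · rw [hM a ha hlt]
        simp
      · have : (Polynomial.X : Polynomial K) ^ (∑ i, a i) =
            Polynomial.X ^ M * Polynomial.X ^ ((∑ i, a i) - M) := by
          rw [← pow_add, Nat.add_sub_cancel' hge]
        rw [this]
        ring
    have e3 := (mul_eq_zero.1 e2).resolve_left (pow_ne_zero _ Polynomial.X_ne_zero)
    have e4 := congrArg (Polynomial.eval (0 : K)) e3
    rw [Polynomial.eval_finsetSum, Polynomial.eval_zero] at e4
    rw [← e4, Finset.sum_filter]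
    refine Finset.sum_congr rfl fun a ha => ?_
    rw [Polynomial.eval_mul, Polynomial.eval_mul, ln_eval, Polynomial.eval_pow, Polynomial.eval_X,
      Polynomial.eval_prod]
    simp only [Polynomial.eval_pow, hr2]
    split_ifs with hc
    · rw [hc]
      simp
    · rcases lt_or_gt_of_ne hc with hlt | hgt
      · rw [hM a ha hlt]
        simp
      · rw [zero_pow (Nat.sub_ne_zero_of_lt hgt)]
        simp
  -- the polynomial with these coefficients vanishes
  have hz : (∑ a ∈ T.filter (fun a => ∑ i, a i = M), monomial a (eval q (h a)) : MvPolynomial τ K) = 0 := by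
    refine MvPolynomial.funext fun w => ?_
    rw [map_sum, map_zero, ← key w]
    refine Finset.sum_congr rfl fun a _ => ?_
    rw [eval_monomial, Finsupp.prod_fintype]
    intro i
    simp
  intro a ha haM
  have := congrArg (coeff a) hz
  rw [coeff_sum, coeff_zero, Finset.sum_eq_single a] at this
  · simpa using this
  · intro b _ hb
    rw [coeff_monomial, if_neg hb]
  · intro hn
    exact absurd (Finset.mem_filter.2 ⟨ha, haM⟩) hn

variable {ι : Type*} [Fintype ι] [DecidableEq ι]

/-- linear independence of `g k * f ^ a` -/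
theorem linInd [Infinite K] (f : τ → MvPolynomial σ K) (p : ι → σ → K)
    (hf : ∀ k i, eval (p k) (f i) = 0) (hJ : ∀ k, Function.Surjective (jac f (p k)))
    (g : ι → MvPolynomial σ K) (hg : ∀ k l, eval (p k) (g l) = if k = l then 1 else 0) :
    LinearIndependent K (fun x : ι × (τ →₀ ℕ) => g x.1 * ∏ i, f i ^ x.2 i) := by
  classical
  rw [linearIndependent_iff']
  intro S c hc
  -- make the support a product
  set T : Finset (τ →₀ ℕ) := S.image Prod.snd with hT
  set c' : ι → (τ →₀ ℕ) → K := fun k a => if (k, a) ∈ S then c (k, a) else 0 with hc'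
  set h : (τ →₀ ℕ) → MvPolynomial σ K := fun a => ∑ k, C (c' k a) * g k with hh
  have hev : ∀ l a, eval (p l) (h a) = c' l a := by
    intro l a
    simp only [hh, map_sum, map_mul, eval_C, hg]
    simp
  have hs : ∑ a ∈ T, h a * ∏ i, f i ^ a i = 0 := by
    rw [← hc]
    have e1 : ∑ a ∈ T, h a * ∏ i, f i ^ a i =
        ∑ x ∈ (Finset.univ : Finset ι) ×ˢ T, c' x.1 x.2 • (g x.1 * ∏ i, f i ^ x.2 i) := by
      rw [Finset.sum_product_right]
      refine Finset.sum_congr rfl fun a _ => ?_
      simp only [hh]
      rw [Finset.sum_mul]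
      refine Finset.sum_congr rfl fun k _ => ?_
      rw [smul_eq_C_mul, mul_assoc]
    rw [e1]
    symm
    have hsub : S ⊆ (Finset.univ : Finset ι) ×ˢ T := by
      intro x hx
      exact Finset.mem_product.2 ⟨Finset.mem_univ _, Finset.mem_image_of_mem _ hx⟩
    have e2 : ∑ x ∈ S, c x • (g x.1 * ∏ i, f i ^ x.2 i) =
        ∑ x ∈ S, c' x.1 x.2 • (g x.1 * ∏ i, f i ^ x.2 i) := by
      refine Finset.sum_congr rfl fun x hx => ?_
      simp only [hc', Prod.mk.eta, if_pos hx]
    rw [e2]
    refine Finset.sum_subset hsub fun x _ hx => ?_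
    simp only [hc', if_neg hx, zero_smul]
  have hall : ∀ M : ℕ, ∀ a ∈ T, (∑ i, a i) = M → ∀ l, c' l a = 0 := by
    intro M
    induction M using Nat.strong_induction_on with
    | _ M ih =>
      intro a ha haM l
      have hM : ∀ a ∈ T, (∑ i, a i) < M → h a = 0 := by
        intro b hb hbM
        simp only [hh]
        refine Finset.sum_eq_zero fun k _ => ?_
        rw [ih _ hbM b hb rfl k]
        simp
      have := local_zero f (p l) (hf l) (hJ l) T h hs M hM a ha haM
      rwa [hev] at this
  intro x hx
  have := hall _ x.2 (Finset.mem_image_of_mem _ hx) rfl x.1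
  simp only [hc', Prod.mk.eta, if_pos hx] at this
  exact this

/-- counting form -/
theorem card_le [Infinite K] (f : τ → MvPolynomial σ K) (p : ι → σ → K)
    (hf : ∀ k i, eval (p k) (f i) = 0) (hJ : ∀ k, Function.Surjective (jac f (p k)))
    (g : ι → MvPolynomial σ K) (hg : ∀ k l, eval (p k) (g l) = if k = l then 1 else 0)
    (T : Finset (τ →₀ ℕ)) (W : Submodule K (MvPolynomial σ K)) [Module.Finite K W]
    (hW : ∀ k, ∀ a ∈ T, g k * ∏ i, f i ^ a i ∈ W) :
    Fintype.card ι * T.card ≤ Module.finrank K W := by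
  have hLI := linInd f p hf hJ g hg
  have h1 : LinearIndependent K (fun x : ι × T => (⟨g x.1 * ∏ i, f i ^ (x.2 : τ →₀ ℕ) i,
      hW x.1 x.2 x.2.2⟩ : W)) := by
    have h2 : LinearIndependent K (W.subtype ∘ (fun x : ι × T => (⟨g x.1 * ∏ i, f i ^ (x.2 : τ →₀ ℕ) i,
      hW x.1 x.2 x.2.2⟩ : W))) := by
      have h3 := hLI.comp (fun x : ι × T => ((x.1, (x.2 : τ →₀ ℕ)) : ι × (τ →₀ ℕ))) (by
        intro x y hxy
        simp only [Prod.mk.injEq] at hxy
        exact Prod.ext hxy.1 (Subtype.ext hxy.2))
      exact h3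
    exact LinearIndependent.of_comp _ h2
  have h4 := h1.fintype_card_le_finrank
  simpa [Fintype.card_prod] using h4

end Bez
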